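import Pool.Agent.K3h67.SIC.Spike

/-!
# Prime dimensions: the cubic phases of Alltop with a time spike
-/

set_option autoImplicit false

namespace Pool.Agent.K3h67.SIC

open Finset

variable {d : ℕ} [NeZero d]

theorem flat_B (g : ZMod d → ℂ) (hg : ∀ k, ‖g k‖ = 1) (b : ZMod d) :
    B 0 b g g = if b = 0 then (d : ℂ) else 0 := by
  rw [← sum_char, B]
  refine Finset.sum_congr rfl fun k _ => ?_
  have : starRingEnd ℂ (g k) * g k = 1 := by
    rw [← Complex.normSq_eq_conj_mul_self, Complex.normSq_eq_norm_sq, hg]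
    simp
  rw [add_zero]
  linear_combination ZMod.stdAddChar (b * k) * this

/-- the cubic phase -/
noncomputable def al : ZMod d → ℂ := fun k => ZMod.stdAddChar (k ^ 3)

theorem al_norm (k : ZMod d) : ‖(al k : ℂ)‖ = 1 := norm_chi _

theorem al_B (hd : d.Prime) (h5 : 5 ≤ d) (a b : ZMod d) (ha : a ≠ 0) :
    ‖B a b al al‖ ^ 2 = d := by
  have : Fact d.Prime := ⟨hd⟩
  set Q : ZMod d → ZMod d := fun k => -(k + a) ^ 3 + b * k + k ^ 3 with hQ
  set S := B a b al al with hS
  have e1 : S = ∑ k, ZMod.stdAddChar (Q k) := by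
    rw [hS, B]
    refine Finset.sum_congr rfl fun k _ => ?_
    rw [al, al, ← AddChar.map_neg_eq_conj, ← AddChar.map_add_eq_mul, ← AddChar.map_add_eq_mul]
  have e2 : S * starRingEnd ℂ S = (d : ℂ) := by
    rw [e1, map_sum, Finset.mul_sum]
    have e3 : ∀ l : ZMod d, (∑ k, ZMod.stdAddChar (Q k)) * starRingEnd ℂ (ZMod.stdAddChar (Q l)) =
        ∑ h, ZMod.stdAddChar (-3 * a ^ 2 * h - 3 * a * h ^ 2 + b * h) *
          (ZMod.stdAddChar ((-6 * a * h) * l) : ℂ) := by
      intro l
      rw [← Equiv.sum_comp (Equiv.addLeft l), Finset.sum_mul]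
      refine Finset.sum_congr rfl fun h _ => ?_
      rw [← AddChar.map_neg_eq_conj, ← AddChar.map_add_eq_mul, ← AddChar.map_add_eq_mul]
      congr 1
      simp only [Equiv.coe_addLeft, hQ]
      ring
    rw [Finset.sum_congr rfl (fun l _ => e3 l), Finset.sum_comm, Finset.sum_eq_single 0]
    · rw [← Finset.mul_sum, sum_char]
      simp
    · intro h _ hh
      rw [← Finset.mul_sum, sum_char, if_neg, mul_zero]
      have h6 : (6 : ZMod d) ≠ 0 := by
        intro h0
        have : ((6 : ℕ) : ZMod d) = 0 := by exact_mod_cast h0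
        rw [ZMod.natCast_eq_zero_iff] at this
        have h7 : d ≤ 6 := Nat.le_of_dvd (by norm_num) this
        have h8 : d = 5 ∨ d = 6 := by omega
        rcases h8 with h8 | h8
        · rw [h8] at this
          omega
        · rw [h8] at hd
          exact absurd hd (by norm_num)
      exact mul_ne_zero (mul_ne_zero (neg_ne_zero.mpr h6) ha) hh
    · intro h
      exact absurd (Finset.mem_univ _) h
  rw [Complex.mul_conj, Complex.normSq_eq_norm_sq] at e2
  exact_mod_cast e2

theorem prime_case (hd : d.Prime) (h5 : 5 ≤ d) :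
    ∃ ψ : ZMod d → ℂ, ip ψ ψ = 1 ∧ ∀ a b : ZMod d, (a, b) ≠ (0, 0) →
    |Real.sqrt ((d : ℝ) + 1) * ‖ip ψ (D a b ψ)‖ - 1| ≤
      10 / Real.sqrt (Real.sqrt ((d : ℝ) + 1)) := by
  set s := Real.sqrt ((d : ℝ) + 1) with hs
  have hd5 : (5 : ℝ) ≤ d := by exact_mod_cast h5
  have hs2 : s ^ 2 = d + 1 := Real.sq_sqrt (by positivity)
  have hs0 : 2 ≤ s := by
    rw [hs]
    apply Real.le_sqrt_of_sq_le
    linarith
  set ρ := Real.sqrt s with hρ
  have hρ2 : ρ ^ 2 = s := Real.sq_sqrt (by linarith)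
  have hρ0 : 0 < ρ := Real.sqrt_pos.mpr (by linarith)
  set x := Real.sqrt (s + 2) - 1 with hx
  have hx2 : (1 + x) ^ 2 = s + 2 := by
    rw [hx, add_sub_cancel, Real.sq_sqrt (by linarith)]
  have hx0 : 0 ≤ x := by
    have : 1 ≤ Real.sqrt (s + 2) := by
      apply Real.le_sqrt_of_sq_le
      linarith
    linarith
  have hN : (0 : ℝ) < s * (s + 1) := by positivity
  have hal0 : (al (0 : ZMod d) : ℂ) = 1 := by simp [al]
  have hff : ∀ a b : ZMod d, B a b (ff al x 0) (ff al x 0) = B a b al al +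
      x * (starRingEnd ℂ (al a) + ZMod.stdAddChar (b * -a) * al (-a)) +
      (x : ℂ) ^ 2 * (if a = 0 then 1 else 0) := by
    intro a b
    rw [B_ff, B_sp_right, B_sp_left, B_sp_right, sp, Pi.single_apply]
    split_ifs <;> simp
  refine normalise (ff al x 0) (s * (s + 1)) (10 / ρ) hN ?_ ?_
  · rw [hff, flat_B al al_norm]
    rw [if_pos rfl, if_pos rfl, neg_zero, mul_zero, hal0]
    have : (d : ℝ) + x * 2 + x ^ 2 = s * (s + 1) := by nlinarith
    rw [← this]
    simp only [map_one, AddChar.map_zero_eq_one]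
    push_cast
    ring
  · intro a b hab
    have h10 : 10 / ρ * (s * (s + 1)) = 10 * ρ * (s + 1) := by
      rw [← hρ2]
      field_simp
    rw [h10, ← hs]
    by_cases ha : a = 0
    · subst ha
      have hb : b ≠ 0 := fun h => hab (by rw [h])
      rw [hff, flat_B al al_norm, if_neg hb, if_pos rfl, neg_zero, mul_zero, hal0]
      have e : (0 : ℂ) + x * (starRingEnd ℂ 1 + ZMod.stdAddChar (0 : ZMod d) * 1) +
          (x : ℂ) ^ 2 * 1 = ((x * 2 + x ^ 2 : ℝ) : ℂ) := by
        simp only [map_one, AddChar.map_zero_eq_one]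
        push_cast
        ring
      have hnn : 0 ≤ x * 2 + x ^ 2 := by positivity
      have habs : |x * 2 + x ^ 2| = x * 2 + x ^ 2 := abs_of_nonneg hnn
      rw [e, Complex.norm_real, Real.norm_eq_abs, habs]
      have e2 : s * (x * 2 + x ^ 2) - s * (s + 1) = 0 := by nlinarith
      rw [e2, abs_zero]
      positivity
    · rw [hff, if_neg ha, mul_zero, add_zero]
      set G := B a b al al with hG
      have hG2 : ‖G‖ ^ 2 = d := al_B hd h5 a b ha
      set H := (x : ℂ) * (starRingEnd ℂ (al a) + ZMod.stdAddChar (b * -a) * al (-a)) with hH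
      have hH2 : ‖H‖ ≤ 2 * x := by
        rw [hH, norm_mul, Complex.norm_real, Real.norm_eq_abs, abs_of_nonneg hx0]
        have h1 : ‖starRingEnd ℂ (al a) + ZMod.stdAddChar (b * -a) * al (-a)‖ ≤ 1 + 1 := by
          refine (norm_add_le _ _).trans (add_le_add ?_ ?_)
          · rw [RCLike.norm_conj, al_norm]
          · rw [norm_mul, norm_chi, al_norm, one_mul]
        nlinarith
      have h1 : ‖G + H‖ ≤ ‖G‖ + ‖H‖ := norm_add_le _ _
      have h2 : ‖G‖ - ‖H‖ ≤ ‖G + H‖ := by
        have := norm_sub_norm_le G (-H)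
        rwa [norm_neg, sub_neg_eq_add] at this
      have hG0 : 0 ≤ ‖G‖ := norm_nonneg _
      have h3 : ‖G‖ ≤ s := by
        apply le_of_sq_le_sq _ (by linarith)
        rw [hG2, hs2]
        linarith
      have h4 : s - 1 ≤ ‖G‖ := by
        apply le_of_sq_le_sq _ hG0
        rw [hG2]
        nlinarith
      -- `|‖A‖ - (s + 1)| ≤ 2 sqrt (s + 2)`
      have h5' : |‖G + H‖ - (s + 1)| ≤ 2 * (1 + x) := by
        rw [abs_le]
        constructor <;> linarith
      have e : s * ‖G + H‖ - s * (s + 1) = s * (‖G + H‖ - (s + 1)) := by ring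
      rw [e, abs_mul, abs_of_nonneg (by linarith : (0 : ℝ) ≤ s)]
      have h6 : s * (2 * (1 + x)) ≤ 10 * ρ * (s + 1) := by
        have h7 : ρ * (1 + x) ≤ s + 1 := by
          apply le_of_sq_le_sq _ (by linarith)
          rw [mul_pow, hρ2, hx2]
          nlinarith
        have h8 : s * (1 + x) = ρ * (ρ * (1 + x)) := by
          rw [← hρ2]
          ring
        nlinarith
      exact (mul_le_mul_of_nonneg_left h5' (by linarith)).trans h6

end Pool.Agent.K3h67.SIC
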