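import Mathlib

/-!
# Weyl–Heisenberg displacement operators: definitions and elementary lemmas
-/

set_option autoImplicit false

namespace Pool.Agent.K3h67.SIC

open scoped BigOperators

/-- `ω = e^{2πi/d}`. -/
noncomputable def omega (d : ℕ) : ℂ := Complex.exp (2 * Real.pi * Complex.I / d)

/-- The shift operator `X|j⟩ = |j+1⟩` on `ℂ^d` (functions on `ZMod d`): `(Xψ)(j) = ψ(j-1)`. -/
def X {d : ℕ} (ψ : ZMod d → ℂ) : ZMod d → ℂ := fun j => ψ (j - 1)

/-- The clock operator `Z|j⟩ = ω^j|j⟩`. -/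
noncomputable def Z {d : ℕ} (ψ : ZMod d → ℂ) : ZMod d → ℂ := fun j => omega d ^ j.val * ψ j

/-- The displacement operator `D_{a,b} = X^a Z^b`. -/
noncomputable def D {d : ℕ} (a b : ZMod d) (ψ : ZMod d → ℂ) : ZMod d → ℂ :=
  X^[a.val] (Z^[b.val] ψ)

/-- The inner product of `ℂ^d`, conjugate linear in the first variable. -/
noncomputable def ip {d : ℕ} [NeZero d] (φ ψ : ZMod d → ℂ) : ℂ :=
  ∑ j, starRingEnd ℂ (φ j) * ψ j

/-- `ψ` is a Weyl–Heisenberg covariant SIC fiducial: a unit vector with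
`|⟨ψ|D_{a,b}|ψ⟩|² = 1/(d+1)` for all `(a,b) ≠ (0,0)`. -/
def IsSICFiducial {d : ℕ} [NeZero d] (ψ : ZMod d → ℂ) : Prop :=
  ip ψ ψ = 1 ∧ ∀ a b : ZMod d, (a, b) ≠ (0, 0) → ‖ip ψ (D a b ψ)‖ ^ 2 = 1 / ((d : ℝ) + 1)

variable {d : ℕ} [NeZero d]

theorem std_pow (z : ZMod d) (k : ℕ) :
    (ZMod.stdAddChar (1 : ZMod d)) ^ (k * z.val) = ZMod.stdAddChar ((k : ZMod d) * z) := by
  rw [← AddChar.map_nsmul_eq_pow]
  congr 1
  rw [nsmul_eq_mul]
  push_cast
  rw [ZMod.natCast_zmod_val, mul_one]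

omit [NeZero d] in
theorem X_iter (k : ℕ) (φ : ZMod d → ℂ) (j : ZMod d) : (X^[k] φ) j = φ (j - k) := by
  induction k generalizing φ with
  | zero => simp
  | succ k ih =>
    rw [Function.iterate_succ_apply, ih]
    simp only [X]
    congr 1
    push_cast
    ring

theorem omega_eq : omega d = ZMod.stdAddChar (1 : ZMod d) := by
  have := ZMod.stdAddChar_coe (N := d) 1
  rw [omega]
  simpa using this.symm

theorem Z_apply (φ : ZMod d → ℂ) (j : ZMod d) : Z φ j = ZMod.stdAddChar j * φ j := by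
  rw [Z, omega_eq]
  congr 1
  have := std_pow j 1
  rw [one_mul, Nat.cast_one, one_mul] at this
  exact this

theorem Z_iter (k : ℕ) (φ : ZMod d → ℂ) (j : ZMod d) :
    (Z^[k] φ) j = ZMod.stdAddChar ((k : ZMod d) * j) * φ j := by
  induction k generalizing φ with
  | zero => simp
  | succ k ih =>
    rw [Function.iterate_succ_apply, ih, Z_apply, ← mul_assoc, ← AddChar.map_add_eq_mul]
    congr 2
    push_cast
    ring

theorem D_apply (a b : ZMod d) (φ : ZMod d → ℂ) (j : ZMod d) :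
    D a b φ j = ZMod.stdAddChar (b * (j - a)) * φ (j - a) := by
  rw [D, X_iter, Z_iter, ZMod.natCast_zmod_val, ZMod.natCast_zmod_val]

theorem ip_D (ψ : ZMod d → ℂ) (a b : ZMod d) :
    ip ψ (D a b ψ) = ∑ j, ZMod.stdAddChar (b * (j - a)) * (starRingEnd ℂ (ψ j) * ψ (j - a)) := by
  rw [ip]
  apply Finset.sum_congr rfl
  intro j _
  rw [D_apply]; ring

/-- the form in which the overlaps are used -/
theorem ip_D' (ψ : ZMod d → ℂ) (a b : ZMod d) :
    ip ψ (D a b ψ) = ∑ k, starRingEnd ℂ (ψ (k + a)) * ZMod.stdAddChar (b * k) * ψ k := by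
  rw [ip_D, ← Equiv.sum_comp (Equiv.addRight a)]
  apply Finset.sum_congr rfl
  intro j _
  simp only [Equiv.coe_addRight, add_sub_cancel_right]
  ring

theorem norm_chi (z : ZMod d) : ‖ZMod.stdAddChar z‖ = 1 := by
  rw [ZMod.stdAddChar_apply]; exact Circle.norm_coe _

end Pool.Agent.K3h67.SIC
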