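import Pool.Agent.K3h67.SIC.Per

/-!
# Weyl–Heisenberg orbits with all overlaps `O(1/d)` in every dimension
-/

set_option autoImplicit false

namespace Pool.Agent.K3h67.SIC

open Finset

variable {d p : ℕ}

theorem win_sq (hd : 1 ≤ d) (m : ℝ) (h0 : 0 ≤ m) (h1 : m ≤ d) :
    ∑ e, (W d (m + sh d e) ^ 2 + W d (m - d + sh d e) ^ 2) = 1 := by
  have hd0 : (0 : ℝ) < d := by exact_mod_cast hd
  rw [Fin.sum_univ_two]
  have s0 : sh d 0 = 0 := by simp [sh]
  have s1 : sh d 1 = d / 2 := by simp [sh]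
  rw [s0, s1, add_zero, add_zero, W_mid d m h0 h1, W_nonpos d (m - d) (by linarith)]
  have hcs := Real.sin_sq_add_cos_sq (Real.pi * m / d)
  rcases le_total m (d / 2) with h | h
  · rw [W_mid d (m + d / 2) (by linarith) (by linarith), W_nonpos d (m - d + d / 2) (by linarith)]
    have e : Real.pi * (m + d / 2) / d = Real.pi * m / d + Real.pi / 2 := by
      field_simp
    rw [e, Real.sin_add_pi_div_two]
    linarith
  · rw [W_large d hd (m + d / 2) (by linarith), W_mid d (m - d + d / 2) (by linarith) (by linarith)]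
    have e : Real.pi * (m - d + d / 2) / d = Real.pi * m / d - Real.pi / 2 := by
      field_simp
      ring
    rw [e, Real.sin_sub_pi_div_two]
    linarith [hcs]

theorem diag [NeZero d] (b : ZMod d) :
    ∑ e, S d p 0 e e ((b.val : ℝ) / d) = if b = 0 then (d : ℂ) else 0 := by
  have hd : 1 ≤ d := Nat.one_le_iff_ne_zero.mpr (NeZero.ne d)
  obtain ⟨G, hG⟩ : ∃ G : ℤ → ℂ, ∀ n : ℤ, G n = (∑ e, ((W d (n + sh d e) ^ 2 : ℝ) : ℂ)) *
      ZMod.stdAddChar (b * (n : ZMod d)) := ⟨_, fun _ => rfl⟩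
  have e1 : ∑ e, S d p 0 e e ((b.val : ℝ) / d) = ∑ n ∈ Ico (-d : ℤ) d, G n := by
    unfold S
    rw [Finset.sum_comm]
    refine Finset.sum_congr rfl fun n _ => ?_
    rw [hG, Finset.sum_mul]
    refine Finset.sum_congr rfl fun e _ => ?_
    rw [chi_int, add_zero, T, map_mul, Complex.conj_ofReal, ec_conj]
    have e2 : ec (-(((n ^ 3 + ga d e * n ^ 2 : ℤ) : ℝ) / p)) *
        ec (((n ^ 3 + ga d e * n ^ 2 : ℤ) : ℝ) / p) = 1 := by
      rw [← ec_add, neg_add_cancel, ec_zero]
    push_cast at e2 ⊢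
    linear_combination ((W d ((n : ℝ) + sh d e) : ℂ) ^ 2 * ec ((b.val : ℝ) / d * n)) * e2
  rw [e1, ← sum_zmod G]
  have e3 : ∀ k : ZMod d, G k.val + G (k.val - d) = ZMod.stdAddChar (k * b) := by
    intro k
    have e2 : (((k.val : ℤ) : ZMod d)) = k := by simp
    have e3 : (((k.val : ℤ) - d : ℤ) : ZMod d) = k := by simp
    rw [hG, hG, e2, e3, ← add_mul, ← Finset.sum_add_distrib]
    have hv : ((k.val : ℕ) : ℝ) ≤ d := by
      exact_mod_cast (ZMod.val_lt k).le
    have h4 := win_sq hd (k.val : ℝ) (by positivity) hv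
    have h5 : ∑ e, (((W d (((k.val : ℤ) : ℝ) + sh d e) ^ 2 : ℝ) : ℂ) +
        ((W d ((((k.val : ℤ) - d : ℤ) : ℝ) + sh d e) ^ 2 : ℝ) : ℂ)) = 1 := by
      rw [← Complex.ofReal_one, ← h4]
      push_cast
      rfl
    rw [h5, one_mul, mul_comm]
  rw [Finset.sum_congr rfl (fun k _ => e3 k), AddChar.sum_mulShift b (ZMod.isPrimitive_stdAddChar d)]
  split_ifs <;> simp [ZMod.card]

theorem main_bound [NeZero d] (hp : p.Prime) (hp1 : 14 * d < p) (hp2 : p ≤ 28 * d)
    (a b : ZMod d) :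
    ‖ip (f d p) (D a b (f d p)) - (if a = 0 ∧ b = 0 then (d : ℂ) else 0)‖ ≤
      16 * Real.sqrt (118600 * d) := by
  have hd : 1 ≤ d := Nat.one_le_iff_ne_zero.mpr (NeZero.ne d)
  set M := Real.sqrt (118600 * d) with hM
  have hM0 : 0 ≤ M := Real.sqrt_nonneg _
  have hval := ZMod.val_lt a
  have hdiag : (if a = 0 ∧ b = 0 then (d : ℂ) else 0) =
      ∑ i ∈ Icc (-2 : ℤ) 1, ∑ e, ∑ e', (if (a = 0 ∧ i = 0) ∧ e = e' then
        S d p (a.val + i * d) e e' ((b.val : ℝ) / d) else 0) := by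
    by_cases ha : a = 0
    · subst ha
      have e1 : ∀ i ∈ Icc (-2 : ℤ) 1, i ≠ 0 → ∑ e : Fin 2, ∑ e' : Fin 2,
          (if ((0 : ZMod d) = 0 ∧ i = 0) ∧ e = e' then
          S d p ((0 : ZMod d).val + i * d) e e' ((b.val : ℝ) / d) else 0) = 0 := by
        intro i _ hi
        refine Finset.sum_eq_zero fun e _ => Finset.sum_eq_zero fun e' _ => ?_
        rw [if_neg (fun h => hi h.1.2)]
      rw [Finset.sum_eq_single 0 e1 (fun h => absurd (by decide) h)]
      have e2 : ∀ e : Fin 2, ∑ e' : Fin 2, (if ((0 : ZMod d) = 0 ∧ (0 : ℤ) = 0) ∧ e = e' then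
          S d p ((0 : ZMod d).val + 0 * d) e e' ((b.val : ℝ) / d) else 0) =
          S d p 0 e e ((b.val : ℝ) / d) := by
        intro e
        rw [Finset.sum_eq_single e]
        · simp
        · intro e' _ h
          rw [if_neg (fun h' => h h'.2.symm)]
        · intro h
          exact absurd (Finset.mem_univ _) h
      rw [Finset.sum_congr rfl (fun e _ => e2 e), diag]
      simp
    · rw [if_neg (fun h => ha h.1)]
      symm
      refine Finset.sum_eq_zero fun i _ => Finset.sum_eq_zero fun e _ =>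
        Finset.sum_eq_zero fun e' _ => ?_
      rw [if_neg (fun h => ha h.1.1)]
  rw [hdiag, ip_eq, ← Finset.sum_sub_distrib]
  have key : ∀ i ∈ Icc (-2 : ℤ) 1, ∀ e e' : Fin 2,
      ‖S d p (a.val + i * d) e e' ((b.val : ℝ) / d) - (if (a = 0 ∧ i = 0) ∧ e = e' then
        S d p (a.val + i * d) e e' ((b.val : ℝ) / d) else 0)‖ ≤ M := by
    intro i hi e e'
    rw [Finset.mem_Icc] at hi
    split_ifs with h
    · rw [sub_self, norm_zero]
      exact hM0
    · rw [sub_zero]
      apply Real.le_sqrt_of_sq_le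
      apply S_bound hd hp hp1 hp2
      · rw [abs_le]
        have h1 : -2 * (d : ℤ) ≤ i * d := by nlinarith
        have h2 : i * (d : ℤ) ≤ 1 * d := by nlinarith
        omega
      · by_contra hc
        rw [not_or, not_ne_iff, not_ne_iff] at hc
        apply h
        have hi0 : i = 0 ∧ a.val = 0 := by
          have h3 := hc.1
          have hi4 : i = -2 ∨ i = -1 ∨ i = 0 ∨ i = 1 := by omega
          rcases hi4 with h4 | h4 | h4 | h4 <;> subst h4 <;> omega
        exact ⟨⟨(ZMod.val_eq_zero a).mp hi0.2, hi0.1⟩, hc.2⟩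
  calc ‖∑ i ∈ Icc (-2 : ℤ) 1, (∑ e, ∑ e', S d p (a.val + i * d) e e' ((b.val : ℝ) / d) -
        ∑ e, ∑ e', (if (a = 0 ∧ i = 0) ∧ e = e' then
          S d p (a.val + i * d) e e' ((b.val : ℝ) / d) else 0))‖
      ≤ ∑ i ∈ Icc (-2 : ℤ) 1, 4 * M := by
        refine (norm_sum_le _ _).trans (Finset.sum_le_sum fun i hi => ?_)
        rw [← Finset.sum_sub_distrib]
        have h1 : ∀ e ∈ (Finset.univ : Finset (Fin 2)),
            ‖(∑ e', S d p (a.val + i * d) e e' ((b.val : ℝ) / d) -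
            ∑ e', (if (a = 0 ∧ i = 0) ∧ e = e' then
              S d p (a.val + i * d) e e' ((b.val : ℝ) / d) else 0))‖ ≤ 2 * M := by
          intro e _
          rw [← Finset.sum_sub_distrib]
          refine (norm_sum_le _ _).trans ?_
          refine (Finset.sum_le_sum fun e' _ => key i hi e e').trans ?_
          simp
        refine (norm_sum_le _ _).trans ((Finset.sum_le_sum h1).trans ?_)
        simp
        linarith
    _ = 16 * M := by
        rw [Finset.sum_const]
        have : (Icc (-2 : ℤ) 1).card = 4 := by decide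
        rw [this]
        simp
        ring

theorem ip_self_real [NeZero d] (g : ZMod d → ℂ) : ip g g = ((∑ k, ‖g k‖ ^ 2 : ℝ) : ℂ) := by
  rw [ip]
  push_cast
  refine Finset.sum_congr rfl fun k _ => ?_
  rw [← Complex.normSq_eq_conj_mul_self, Complex.normSq_eq_norm_sq]
  push_cast
  rfl

theorem D_zero [NeZero d] (g : ZMod d → ℂ) : D 0 0 g = g := by
  funext j
  rw [D_apply]
  simp

theorem ip_scale [NeZero d] (c : ℝ) (g : ZMod d → ℂ) (a b : ZMod d) :
    ip (fun k => (c : ℂ) * g k) (D a b (fun k => (c : ℂ) * g k)) =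
      ((c ^ 2 : ℝ) : ℂ) * ip g (D a b g) := by
  rw [ip_D', ip_D', Finset.mul_sum]
  refine Finset.sum_congr rfl fun k _ => ?_
  rw [map_mul, Complex.conj_ofReal]
  push_cast
  ring

theorem every (d : ℕ) [NeZero d] : ∃ ψ : ZMod d → ℂ, ip ψ ψ = 1 ∧
    ∀ a b : ZMod d, (a, b) ≠ (0, 0) →
      ‖ip ψ (D a b ψ)‖ ^ 2 ≤ 250000000 / ((d : ℝ) + 1) := by
  have hd : 1 ≤ d := Nat.one_le_iff_ne_zero.mpr (NeZero.ne d)
  have hd0 : (0 : ℝ) < d := by exact_mod_cast hd
  have hd1 : (1 : ℝ) ≤ d := by exact_mod_cast hd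
  rcases le_or_gt (121446400 : ℝ) d with hbig | hsmall
  · obtain ⟨p, hp, hp1, hp2⟩ := Nat.exists_prime_lt_and_le_two_mul (14 * d) (by omega)
    have hp2' : p ≤ 28 * d := by omega
    set M := Real.sqrt (118600 * d) with hM
    have hM0 : 0 ≤ M := Real.sqrt_nonneg _
    have hM2 : M ^ 2 = 118600 * d := Real.sq_sqrt (by positivity)
    have hMd : 32 * M ≤ d := by
      have : (32 * M) ^ 2 ≤ (d : ℝ) ^ 2 := by nlinarith
      exact le_of_sq_le_sq this hd0.le
    set N : ℝ := ∑ k, ‖f d p k‖ ^ 2 with hN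
    have h00 := main_bound hp hp1 hp2' (0 : ZMod d) 0
    rw [if_pos ⟨rfl, rfl⟩, D_zero, ip_self_real] at h00
    have hN2 : (d : ℝ) / 2 ≤ N := by
      have e : ((∑ k, ‖f d p k‖ ^ 2 : ℝ) : ℂ) - (d : ℂ) = ((N - d : ℝ) : ℂ) := by
        rw [hN]; push_cast; rfl
      rw [e, Complex.norm_real, Real.norm_eq_abs, abs_le] at h00
      linarith [h00.1]
    have hN0 : 0 < N := by linarith
    set c : ℝ := Real.sqrt (1 / N) with hc
    have hc2 : c ^ 2 = 1 / N := Real.sq_sqrt (by positivity)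
    refine ⟨fun k => (c : ℂ) * f d p k, ?_, fun a b hab => ?_⟩
    · have e := ip_scale c (f d p) 0 0
      rw [D_zero, D_zero, ip_self_real (f d p), ← hN, hc2, ← Complex.ofReal_mul,
        one_div_mul_cancel hN0.ne', Complex.ofReal_one] at e
      exact e
    · rw [ip_scale, hc2, norm_mul, Complex.norm_real, Real.norm_eq_abs,
        abs_of_pos (by positivity), mul_pow]
      have h1 := main_bound hp hp1 hp2' a b
      rw [if_neg (fun h => hab (by rw [h.1, h.2])), sub_zero] at h1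
      have h2 : ‖ip (f d p) (D a b (f d p))‖ ^ 2 ≤ 256 * (118600 * d) := by
        rw [← hM] at h1
        have := pow_le_pow_left₀ (norm_nonneg _) h1 2
        rw [mul_pow, hM2] at this
        linarith
      have h3 : (1 / N) ^ 2 ≤ (2 / d) ^ 2 := by
        apply pow_le_pow_left₀ (by positivity)
        rw [div_le_div_iff₀ hN0 hd0]
        linarith
      have h4 : (1 / N) ^ 2 * ‖ip (f d p) (D a b (f d p))‖ ^ 2 ≤
          (2 / d) ^ 2 * (256 * (118600 * d)) :=
        mul_le_mul h3 h2 (by positivity) (by positivity)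
      refine h4.trans ?_
      rw [le_div_iff₀ (by positivity)]
      have e : (2 / (d : ℝ)) ^ 2 * (256 * (118600 * d)) * (d + 1) = 121446400 * ((d + 1) / d) := by
        field_simp
        norm_num
      rw [e]
      have : ((d : ℝ) + 1) / d ≤ 2 := by
        rw [div_le_iff₀ hd0]
        linarith
      linarith
  · refine ⟨Pi.single 0 1, ?_, fun a b _ => ?_⟩
    · rw [ip, Finset.sum_eq_single 0]
      · simp
      · intro k _ hk
        simp [hk]
      · intro h
        exact absurd (Finset.mem_univ _) h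
    · have e : ip (Pi.single (0 : ZMod d) (1 : ℂ)) (D a b (Pi.single (0 : ZMod d) (1 : ℂ))) =
          D a b (Pi.single (0 : ZMod d) (1 : ℂ)) 0 := by
        rw [ip, Finset.sum_eq_single 0]
        · simp
        · intro k _ hk
          simp [hk]
        · intro h
          exact absurd (Finset.mem_univ _) h
      rw [e, D_apply, norm_mul, norm_chi, one_mul]
      have h1 : ‖(Pi.single (0 : ZMod d) (1 : ℂ) : ZMod d → ℂ) (0 - a)‖ ≤ 1 := by
        rw [Pi.single_apply]
        split_ifs <;> simp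
      have h2 : ‖(Pi.single (0 : ZMod d) (1 : ℂ) : ZMod d → ℂ) (0 - a)‖ ^ 2 ≤ 1 :=
        pow_le_one₀ (norm_nonneg _) h1
      refine h2.trans ?_
      rw [le_div_iff₀ (by positivity)]
      linarith

end Pool.Agent.K3h67.SIC
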