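import Pool.Agent.K3h67.SIC.Alltop

/-!
# Dimensions `q - 1`: additive characters on the multiplicative group, with two spikes
-/

set_option autoImplicit false

namespace Pool.Agent.K3h67.SIC

open Finset

set_option linter.unusedSectionVars false

variable {F : Type} [Field F] [Fintype F] {d : ℕ} [NeZero d]

/-- `k ↦ φ(γ^k)` -/
noncomputable def gs (e : Multiplicative (ZMod d) ≃* Fˣ) (φ : AddChar F ℂ) (k : ZMod d) : ℂ :=
  φ (e (Multiplicative.ofAdd k) : Fˣ)

/-- the character `γ^k ↦ χ(bk)` of the multiplicative group -/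
noncomputable def mh (e : Multiplicative (ZMod d) ≃* Fˣ) (b : ZMod d) : Fˣ →* ℂ where
  toFun t := ZMod.stdAddChar (b * (e.symm t).toAdd)
  map_one' := by simp
  map_mul' s t := by
    rw [map_mul e.symm, toAdd_mul, mul_add, AddChar.map_add_eq_mul]

/-- the multiplicative character of index `b` -/
noncomputable def mc (e : Multiplicative (ZMod d) ≃* Fˣ) (b : ZMod d) : MulChar F ℂ :=
  MulChar.ofUnitHom (mh e b).toHomUnits

theorem mc_apply (e : Multiplicative (ZMod d) ≃* Fˣ) (b k : ZMod d) :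
    mc e b ((e (Multiplicative.ofAdd k) : Fˣ) : F) = ZMod.stdAddChar (b * k) := by
  rw [mc, MulChar.ofUnitHom_coe]
  simp [mh]

theorem mc_ne_one (e : Multiplicative (ZMod d) ≃* Fˣ) (b : ZMod d) (hb : b ≠ 0) :
    mc e b ≠ 1 := by
  intro h
  have h1 := mc_apply e b 1
  rw [h, MulChar.one_apply_coe, mul_one] at h1
  have h2 : ZMod.stdAddChar b = ZMod.stdAddChar (0 : ZMod d) := by
    rw [← h1, AddChar.map_zero_eq_one]
  exact hb (ZMod.injective_stdAddChar h2)

theorem mc_zero (e : Multiplicative (ZMod d) ≃* Fˣ) : mc e 0 = 1 := by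
  apply MulChar.ext
  intro a
  have h := mc_apply e 0 (e.symm a).toAdd
  rw [ofAdd_toAdd, MulEquiv.apply_symm_apply] at h
  rw [h, MulChar.one_apply_coe, zero_mul, AddChar.map_zero_eq_one]

theorem sum_gs (e : Multiplicative (ZMod d) ≃* Fˣ) (φ : AddChar F ℂ) (b : ZMod d) (c : F) :
    ∑ k : ZMod d, ZMod.stdAddChar (b * k) * φ (c * (e (Multiplicative.ofAdd k) : Fˣ)) =
      gaussSum (mc e b) (φ.mulShift c) := by
  rw [gaussSum]
  refine Finset.sum_of_injOn (fun k : ZMod d => ((e (Multiplicative.ofAdd k) : Fˣ) : F))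
    ?_ ?_ ?_ ?_
  · intro k _ l _ h
    exact Multiplicative.ofAdd.injective (e.injective (Units.ext h))
  · intro k _
    exact Finset.mem_coe.mpr (Finset.mem_univ _)
  · intro x _ hx
    by_cases h0 : x = 0
    · rw [h0, MulChar.map_zero, zero_mul]
    · exfalso
      apply hx
      refine ⟨(e.symm (Units.mk0 x h0)).toAdd, Finset.mem_coe.mpr (Finset.mem_univ _), ?_⟩
      simp
  · intro k _
    rw [mc_apply, AddChar.mulShift_apply]

theorem gauss_norm {χ : MulChar F ℂ} (hχ : χ ≠ 1) {ψ : AddChar F ℂ} (hψ : ψ.IsPrimitive) :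
    ‖gaussSum χ ψ‖ ^ 2 = Fintype.card F := by
  have h := gaussSum_mul_gaussSum_eq_card hχ hψ
  rw [← star_gaussSum_eq] at h
  have h2 : gaussSum χ ψ * star (gaussSum χ ψ) = ((‖gaussSum χ ψ‖ ^ 2 : ℝ) : ℂ) := by
    rw [← starRingEnd_apply, Complex.mul_conj, Complex.normSq_eq_norm_sq]
  rw [h2] at h
  exact_mod_cast h

theorem gs_norm (e : Multiplicative (ZMod d) ≃* Fˣ) (φ : AddChar F ℂ) (k : ZMod d) :
    ‖gs e φ k‖ = 1 := AddChar.norm_apply _ _

theorem gs_shift (e : Multiplicative (ZMod d) ≃* Fˣ) (φ : AddChar F ℂ) (a b : ZMod d) :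
    B a b (gs e φ) (gs e φ) =
      gaussSum (mc e b) (φ.mulShift (1 - ((e (Multiplicative.ofAdd a) : Fˣ) : F))) := by
  rw [← sum_gs, B]
  refine Finset.sum_congr rfl fun k _ => ?_
  rw [gs, gs, ← AddChar.map_neg_eq_conj]
  have : φ ((1 - ((e (Multiplicative.ofAdd a) : Fˣ) : F)) * (e (Multiplicative.ofAdd k) : Fˣ)) =
      φ (-((e (Multiplicative.ofAdd (k + a)) : Fˣ) : F)) *
        φ ((e (Multiplicative.ofAdd k) : Fˣ) : F) := by
    rw [← AddChar.map_add_eq_mul]
    congr 1
    rw [ofAdd_add, map_mul, Units.val_mul]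
    ring
  rw [this]
  ring

theorem shift_prim {φ : AddChar F ℂ} (hφ : φ ≠ 1) {c : F} (hc : c ≠ 0) :
    φ.mulShift c ≠ 1 := AddChar.IsPrimitive.of_ne_one hφ hc

theorem gauss_case (h3 : 3 ≤ d) (hd : IsPrimePow (d + 1)) :
    ∃ ψ : ZMod d → ℂ, ip ψ ψ = 1 ∧ ∀ a b : ZMod d, (a, b) ≠ (0, 0) →
    |Real.sqrt ((d : ℝ) + 1) * ‖ip ψ (D a b ψ)‖ - 1| ≤
      10 / Real.sqrt (Real.sqrt ((d : ℝ) + 1)) := by
  -- the field
  obtain ⟨F, _, _, hF⟩ : ∃ (F : Type) (_ : Field F) (_ : Fintype F), Fintype.card F = d + 1 := by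
    have : Nonempty (Field (Fin (d + 1))) := by
      rw [Fintype.nonempty_field_iff]
      simpa using hd
    exact ⟨Fin (d + 1), this.some, inferInstance, Fintype.card_fin _⟩
  have hcard : Nat.card (Multiplicative (ZMod d)) = Nat.card Fˣ := by
    rw [Nat.card_units, Nat.card_eq_fintype_card (α := F), hF]
    have : Nat.card (Multiplicative (ZMod d)) = Nat.card (ZMod d) := rfl
    rw [this, Nat.card_zmod]
    omega
  have e : Multiplicative (ZMod d) ≃* Fˣ := mulEquivOfCyclicCardEq hcard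
  obtain ⟨φ, hφ⟩ : ∃ φ : AddChar F ℂ, φ ≠ 1 := by
    obtain ⟨φ, h⟩ := (AddChar.exists_apply_ne_zero (α := F) (a := 1)).mpr one_ne_zero
    exact ⟨φ, fun h1 => h (by rw [h1]; rfl)⟩
  -- the real numbers
  set s := Real.sqrt ((d : ℝ) + 1) with hs
  have hd3 : (3 : ℝ) ≤ d := by exact_mod_cast h3
  have hs2 : s ^ 2 = d + 1 := Real.sq_sqrt (by positivity)
  have hs0 : 2 ≤ s := by
    rw [hs]
    apply Real.le_sqrt_of_sq_le
    linarith
  set ρ := Real.sqrt s with hρ
  have hρ2 : ρ ^ 2 = s := Real.sq_sqrt (by linarith)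
  have hρ0 : 0 < ρ := Real.sqrt_pos.mpr (by linarith)
  have hρ1 : 1.414 ≤ ρ := by
    rw [hρ]
    apply Real.le_sqrt_of_sq_le
    norm_num
    linarith
  have hd0 : (0 : ℝ) < d := by linarith
  set y := ρ / Real.sqrt d with hy
  have hy0 : 0 < y := by positivity
  have hy2 : y ^ 2 * d = s := by
    rw [hy, div_pow, Real.sq_sqrt hd0.le, hρ2]
    field_simp
  have hys : y * s ≤ 1.155 * ρ := by
    apply le_of_sq_le_sq _ (by positivity)
    rw [mul_pow, mul_pow, hρ2, hs2]
    have : y ^ 2 * (d + 1) = s + y ^ 2 := by rw [mul_add, hy2, mul_one]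
    rw [this]
    nlinarith
  have hxy : ρ * y ≤ 1.155 := by
    have : (ρ * y) * s ≤ 1.155 * s := by
      calc (ρ * y) * s = ρ * (y * s) := by ring
        _ ≤ ρ * (1.155 * ρ) := mul_le_mul_of_nonneg_left hys hρ0.le
        _ = 1.155 * s := by rw [← hρ2]; ring
    exact le_of_mul_le_mul_right this (by linarith)
  have hxy1 : 1 ≤ ρ * y := by
    have : (1 : ℝ) ^ 2 ≤ (ρ * y) ^ 2 := by
      rw [mul_pow, hρ2]
      nlinarith
    exact le_of_sq_le_sq this (by positivity)
  -- the sums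
  set g := gs e φ with hg
  have hgn : ∀ k, ‖g k‖ = 1 := gs_norm e φ
  have hsum : ∀ b : ZMod d, ∑ k, ZMod.stdAddChar (b * k) * g k = gaussSum (mc e b) φ := by
    intro b
    have := sum_gs e φ b 1
    simp only [one_mul, AddChar.mulShift_one] at this
    exact this
  have hφp : φ.IsPrimitive := AddChar.IsPrimitive.of_ne_one hφ
  have hsn : ∀ b : ZMod d, b ≠ 0 → ‖∑ k, ZMod.stdAddChar (b * k) * g k‖ = s := by
    intro b hb
    rw [hsum, hs]
    symm
    rw [Real.sqrt_eq_iff_mul_self_eq (by positivity) (norm_nonneg _), ← pow_two,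
      gauss_norm (mc_ne_one e b hb) hφp, hF]
    push_cast
    rfl
  have hs1 : ∑ k, ZMod.stdAddChar ((0 : ZMod d) * k) * g k = -1 := by
    rw [hsum, mc_zero, gaussSum_one_left hφ]
  have hff : ∀ a b : ZMod d, B a b (ff g ρ y) (ff g ρ y) = B a b g g +
      ρ * (starRingEnd ℂ (g a) + ZMod.stdAddChar (b * -a) * g (-a)) +
      (s : ℂ) * (if a = 0 then 1 else 0) +
      y * (ZMod.stdAddChar (b * -a) * starRingEnd ℂ (∑ k, ZMod.stdAddChar (-b * k) * g k) +
        ∑ k, ZMod.stdAddChar (b * k) * g k) +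
      ρ * y * (ZMod.stdAddChar (b * -a) + 1) + (s : ℂ) * (if b = 0 then 1 else 0) := by
    intro a b
    have h1 : ((ρ : ℂ)) ^ 2 = s := by exact_mod_cast hρ2
    have h2 : ((y : ℂ)) ^ 2 * d = s := by exact_mod_cast hy2
    rw [B_ff, B_sp_right, B_sp_left, B_sp_right, B_cn_left, B_cn_right, B_cn_cn, B_sp_left,
      B_sp_right, h1, ← h2, sp, Pi.single_apply]
    split_ifs <;> simp [cn]
  have hgg : ∀ a b : ZMod d, a ≠ 0 → b ≠ 0 → ‖B a b g g‖ = s := by
    intro a b ha hb
    have hc : (1 - ((e (Multiplicative.ofAdd a) : Fˣ) : F)) ≠ 0 := by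
      intro h
      apply ha
      have h1 : e (Multiplicative.ofAdd a) = 1 := by
        apply Units.ext
        rw [Units.val_one]
        exact (sub_eq_zero.mp h).symm
      have h2 : Multiplicative.ofAdd a = 1 := by
        rw [← map_one e] at h1
        exact e.injective h1
      simpa using h2
    rw [hg, gs_shift, hs]
    symm
    rw [Real.sqrt_eq_iff_mul_self_eq (by positivity) (norm_nonneg _), ← pow_two,
      gauss_norm (mc_ne_one e b hb) (AddChar.IsPrimitive.of_ne_one (shift_prim hφ hc)), hF]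
    push_cast
    rfl
  have hgg0 : ∀ a : ZMod d, a ≠ 0 → B a 0 g g = -1 := by
    intro a ha
    have hc : (1 - ((e (Multiplicative.ofAdd a) : Fˣ) : F)) ≠ 0 := by
      intro h
      apply ha
      have h1 : e (Multiplicative.ofAdd a) = 1 := by
        apply Units.ext
        rw [Units.val_one]
        exact (sub_eq_zero.mp h).symm
      have h2 : Multiplicative.ofAdd a = 1 := by
        rw [← map_one e] at h1
        exact e.injective h1
      simpa using h2
    rw [hg, gs_shift, mc_zero, gaussSum_one_left (shift_prim hφ hc)]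
  -- the error terms
  have hX : ∀ a b : ZMod d, ‖(ρ : ℂ) * (starRingEnd ℂ (g a) +
      ZMod.stdAddChar (b * -a) * g (-a))‖ ≤ 2 * ρ := by
    intro a b
    rw [norm_mul, Complex.norm_real, Real.norm_eq_abs, abs_of_pos hρ0]
    have h1 : ‖starRingEnd ℂ (g a) + ZMod.stdAddChar (b * -a) * g (-a)‖ ≤ 1 + 1 := by
      refine (norm_add_le _ _).trans (add_le_add ?_ ?_)
      · rw [RCLike.norm_conj, hgn]
      · rw [norm_mul, norm_chi, hgn, one_mul]
    nlinarith
  have hXY : ∀ a b : ZMod d, ‖(ρ : ℂ) * y * (ZMod.stdAddChar (b * -a) + 1)‖ ≤ 2 * (ρ * y) := by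
    intro a b
    rw [norm_mul, norm_mul, Complex.norm_real, Complex.norm_real, Real.norm_eq_abs,
      Real.norm_eq_abs, abs_of_pos hρ0, abs_of_pos hy0]
    have h1 : ‖(ZMod.stdAddChar (b * -a) : ℂ) + 1‖ ≤ 1 + 1 := by
      refine (norm_add_le _ _).trans (add_le_add ?_ ?_)
      · rw [norm_chi]
      · rw [norm_one]
    have : 0 ≤ ρ * y := by positivity
    nlinarith
  have hY : ∀ a b : ZMod d, b ≠ 0 → ‖(y : ℂ) * (ZMod.stdAddChar (b * -a) *
      starRingEnd ℂ (∑ k, ZMod.stdAddChar (-b * k) * g k) +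
        ∑ k, ZMod.stdAddChar (b * k) * g k)‖ ≤ 2 * (y * s) := by
    intro a b hb
    rw [norm_mul, Complex.norm_real, Real.norm_eq_abs, abs_of_pos hy0]
    have h1 : ‖ZMod.stdAddChar (b * -a) *
      starRingEnd ℂ (∑ k, ZMod.stdAddChar (-b * k) * g k) +
        ∑ k, ZMod.stdAddChar (b * k) * g k‖ ≤ s + s := by
      refine (norm_add_le _ _).trans (add_le_add ?_ ?_)
      · rw [norm_mul, norm_chi, RCLike.norm_conj, hsn _ (neg_ne_zero.mpr hb), one_mul]
      · rw [hsn b hb]
    nlinarith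
  have hre : |(g 0).re| ≤ 1 := (Complex.abs_re_le_norm _).trans (hgn 0).le
  rw [abs_le] at hre
  set N : ℝ := d + 2 * ρ * (g 0).re + 2 * s - 2 * y + 2 * (ρ * y) with hN
  have hNlow : s ^ 2 ≤ N := by
    rw [hN, hs2]
    nlinarith [hre.1, mul_le_mul_of_nonneg_left hre.1 hρ0.le]
  have hNup : N - s ^ 2 ≤ 2 * s + 2 * ρ + 2.31 := by
    rw [hN, hs2]
    nlinarith [hre.2, mul_le_mul_of_nonneg_left hre.2 hρ0.le]
  have hN0 : 0 < N := by nlinarith
  have key : ∀ A : ℂ, ‖A - s‖ ≤ 2 * ρ + 2 * (y * s) + 2 * (ρ * y) ∨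
      |‖A‖ - s| ≤ 2 * ρ + 2 * (y * s) + 2 * (ρ * y) →
      |s * ‖A‖ - N| ≤ 10 / ρ * N := by
    intro A hA
    have h1 : |‖A‖ - s| ≤ 2 * ρ + 2 * (y * s) + 2 * (ρ * y) := by
      rcases hA with hA | hA
      · have h2 := abs_norm_sub_norm_le A (s : ℂ)
        rw [Complex.norm_real, Real.norm_eq_abs, abs_of_nonneg (by linarith : (0 : ℝ) ≤ s)] at h2
        exact h2.trans hA
      · exact hA
    have h2 : |‖A‖ - s| ≤ 4.31 * ρ + 2.31 := by linarith
    have h3 : |s * ‖A‖ - N| ≤ s * (4.31 * ρ + 2.31) + (2 * s + 2 * ρ + 2.31) := by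
      rw [abs_le] at h2 ⊢
      constructor
      · nlinarith [mul_le_mul_of_nonneg_left h2.1 (by linarith : (0 : ℝ) ≤ s)]
      · nlinarith [mul_le_mul_of_nonneg_left h2.2 (by linarith : (0 : ℝ) ≤ s)]
    refine h3.trans ?_
    have h4 : 10 * ρ ^ 3 ≤ 10 / ρ * N := by
      have h5 : 10 / ρ * s ^ 2 ≤ 10 / ρ * N :=
        mul_le_mul_of_nonneg_left hNlow (by positivity)
      have h6 : 10 / ρ * s ^ 2 = 10 * ρ ^ 3 := by
        rw [← hρ2]
        field_simp
      linarith
    refine le_trans ?_ h4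
    rw [← hρ2]
    have h7 : 1.414 * ρ ^ 2 ≤ ρ ^ 3 := by nlinarith [sq_nonneg ρ]
    have h8 : 1.999 * ρ ≤ ρ ^ 3 := by nlinarith [sq_nonneg ρ]
    nlinarith
  refine normalise (ff g ρ y) N (10 / ρ) hN0 ?_ ?_
  · rw [hff, flat_B g hgn, if_pos rfl, if_pos rfl, neg_zero, hs1]
    have h1 : starRingEnd ℂ (g 0) + g 0 = ((2 * (g 0).re : ℝ) : ℂ) := by
      rw [add_comm, Complex.add_conj]
    have h2 : starRingEnd ℂ (g 0) + ZMod.stdAddChar ((0 : ZMod d) * 0) * g 0 =
        ((2 * (g 0).re : ℝ) : ℂ) := by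
      rw [mul_zero, AddChar.map_zero_eq_one, one_mul, h1]
    rw [h2, mul_zero, AddChar.map_zero_eq_one, hN]
    simp only [map_neg, map_one]
    push_cast
    ring
  · intro a b hab
    rw [← hs]
    apply key
    by_cases ha : a = 0
    · have hb : b ≠ 0 := fun h => hab (by rw [ha, h])
      left
      subst ha
      rw [hff, flat_B g hgn, if_neg hb, if_pos rfl, if_neg hb]
      have h1 := hX 0 b
      have h2 := hXY 0 b
      have h3 := hY 0 b hb
      have e1 : ∀ u v w : ℂ, 0 + u + (s : ℂ) * 1 + v + w + (s : ℂ) * 0 - s = u + v + w := by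
        intro u v w
        ring
      rw [e1]
      refine (norm_add_le _ _).trans ?_
      refine le_trans (add_le_add (norm_add_le _ _) le_rfl) ?_
      linarith
    · by_cases hb : b = 0
      · left
        subst hb
        rw [hff, hgg0 a ha, if_neg ha, if_pos rfl, neg_zero, hs1, zero_mul]
        have h1 := hX a 0
        have h2 := hXY a 0
        rw [zero_mul] at h1 h2
        have e1 : ∀ u v w : ℂ, -1 + u + (s : ℂ) * 0 + v + w + (s : ℂ) * 1 - s =
            (-1 + v) + (u + w) := by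
          intro u v w
          ring
        rw [e1]
        have h3 : ‖(-1 : ℂ) + (y : ℂ) * (ZMod.stdAddChar (0 : ZMod d) * starRingEnd ℂ (-1) + -1)‖ ≤
            1 + 2 * y := by
          rw [AddChar.map_zero_eq_one]
          have e2 : (-1 : ℂ) + (y : ℂ) * (1 * starRingEnd ℂ (-1) + -1) =
              ((-(1 + 2 * y) : ℝ) : ℂ) := by
            simp only [map_neg, map_one]
            push_cast
            ring
          rw [e2, Complex.norm_real, norm_neg, Real.norm_eq_abs, abs_of_pos (by positivity)]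
        refine (norm_add_le _ _).trans ?_
        refine le_trans (add_le_add h3 (norm_add_le _ _)) ?_
        have h4 : 1 + 2 * y ≤ 2 * (y * s) := by
          have h5 : 1 / ρ ≤ y := by
            rw [div_le_iff₀ hρ0]
            linarith
          have h6 : ρ ≤ 2 * (s - 1) := by nlinarith
          have h7 : 1 ≤ y * ρ := by linarith
          nlinarith
        linarith
      · right
        rw [hff, if_neg ha, if_neg hb]
        have h1 := hX a b
        have h2 := hXY a b
        have h3 := hY a b hb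
        have h4 := hgg a b ha hb
        have e1 : ∀ G u v w : ℂ, G + u + (s : ℂ) * 0 + v + w + (s : ℂ) * 0 =
            G + (u + v + w) := by
          intro G u v w
          ring
        rw [e1]
        have e2 : ∀ G R : ℂ, |‖G + R‖ - ‖G‖| ≤ ‖R‖ := by
          intro G R
          have := abs_norm_sub_norm_le (G + R) G
          rwa [add_sub_cancel_left] at this
        rw [← h4]
        refine (e2 _ _).trans ?_
        refine (norm_add_le _ _).trans ?_
        refine le_trans (add_le_add (norm_add_le _ _) le_rfl) ?_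
        rw [h4]
        linarith

end Pool.Agent.K3h67.SIC
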