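import Pool.Agent.K3h67.SIC.Sum

/-!
# Exponential sums with a quadratic phase and a smooth window: the square root bound
-/

set_option autoImplicit false

namespace Pool.Agent.K3h67.SIC

open Finset

theorem reidx (G : ℤ → ℂ) (A B n : ℤ) (hn : n ∈ Icc A B) (hsupp : ∀ n, n < A ∨ B < n → G n = 0) :
    ∑ h ∈ Icc (A - B) (B - A), G (n + h) = ∑ m ∈ Icc A B, G m := by
  have e1 : ∑ h ∈ Icc (A - B) (B - A), G (n + h) =
      ∑ m ∈ (Icc (A - B) (B - A)).map (addLeftEmbedding n), G m := by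
    rw [Finset.sum_map]
    rfl
  rw [e1]
  symm
  rw [Finset.mem_Icc] at hn
  apply Finset.sum_subset
  · intro m hm
    rw [Finset.mem_Icc] at hm
    rw [Finset.mem_map]
    exact ⟨m - n, by rw [Finset.mem_Icc]; omega, by simp⟩
  · intro m _ hm2
    rw [Finset.mem_Icc, not_and_or, not_le, not_le] at hm2
    exact hsupp m hm2

theorem quad_sum (p : ℕ) (hp : p.Prime) (L τ σ δ : ℝ) (Φ : ℤ → ℝ) (hΦ : Nice L τ σ δ Φ)
    (A B : ℤ) (hAB : A ≤ B) (hlen : 2 * (B - A) < p) (hsupp : ∀ n, n < A ∨ B < n → Φ n = 0)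
    (r : ℤ) (hr : ¬ (p : ℤ) ∣ 2 * r) (β : ℝ) :
    ‖∑ n ∈ Icc A B, (Φ n : ℂ) * ec ((r : ℝ) / p * (n : ℝ) ^ 2 + β * n)‖ ^ 2 ≤
      ((B - A + 1 : ℤ) : ℝ) + (σ + σ + 2 * L * τ) * δ * ((p : ℝ) ^ 2 / 4) := by
  set E : ℤ → ℂ := fun n => ec ((r : ℝ) / p * (n : ℝ) ^ 2 + β * n) with hE
  set S := ∑ n ∈ Icc A B, (Φ n : ℂ) * E n with hS
  set H := Icc (A - B) (B - A) with hH
  have hp0 : (0 : ℝ) < p := by exact_mod_cast hp.pos
  have hEE : ∀ n h : ℤ, E (n + h) * starRingEnd ℂ (E n) =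
      ec ((r : ℝ) / p * (h : ℝ) ^ 2 + β * h) * ec (((2 * r * h : ℤ) : ℝ) / p * n) := by
    intro n h
    rw [hE]
    simp only
    rw [ec_conj, ← ec_add, ← ec_add]
    congr 1
    push_cast
    ring
  have hSS : S * starRingEnd ℂ S = ∑ h ∈ H, ec ((r : ℝ) / p * (h : ℝ) ^ 2 + β * h) *
      ∑ n ∈ Icc A B, ((Φ n * Φ (n + h) : ℝ) : ℂ) * ec (((2 * r * h : ℤ) : ℝ) / p * n) := by
    have e1 : starRingEnd ℂ S = ∑ n ∈ Icc A B, (Φ n : ℂ) * starRingEnd ℂ (E n) := by
      rw [hS, map_sum]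
      refine Finset.sum_congr rfl fun n _ => ?_
      rw [map_mul, Complex.conj_ofReal]
    rw [e1, Finset.mul_sum]
    have e2 : ∀ n ∈ Icc A B, S * ((Φ n : ℂ) * starRingEnd ℂ (E n)) =
        ∑ h ∈ H, ec ((r : ℝ) / p * (h : ℝ) ^ 2 + β * h) *
          (((Φ n * Φ (n + h) : ℝ) : ℂ) * ec (((2 * r * h : ℤ) : ℝ) / p * n)) := by
      intro n hn
      have e3 := reidx (fun m => (Φ m : ℂ) * E m) A B n hn (fun m hm => by
        simp only [hsupp m hm, Complex.ofReal_zero, zero_mul])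
      rw [hS, ← e3, Finset.sum_mul]
      refine Finset.sum_congr rfl fun h _ => ?_
      have := hEE n h
      push_cast
      push_cast at this
      linear_combination ((Φ n : ℂ) * (Φ (n + h) : ℂ)) * this
    rw [Finset.sum_congr rfl e2, Finset.sum_comm]
    refine Finset.sum_congr rfl fun h _ => ?_
    rw [Finset.mul_sum]
  have hN : ‖S‖ ^ 2 = ‖S * starRingEnd ℂ S‖ := by
    rw [norm_mul, RCLike.norm_conj, sq]
  rw [hN, hSS]
  have hV : ∀ h : ℤ, ∀ T : Finset ℤ, ∑ n ∈ T, |(Φ (n + 2) * Φ (n + 2 + h)) -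
      2 * (Φ (n + 1) * Φ (n + 1 + h)) + Φ n * Φ (n + h)| ≤ (σ + σ + 2 * L * τ) * δ := by
    intro h T
    exact (hΦ.mul (hΦ.shift h)).v2 T
  have hterm : ∀ h ∈ H, h ≠ 0 → ‖ec ((r : ℝ) / p * (h : ℝ) ^ 2 + β * h) *
      ∑ n ∈ Icc A B, ((Φ n * Φ (n + h) : ℝ) : ℂ) * ec (((2 * r * h : ℤ) : ℝ) / p * n)‖ ≤
      (σ + σ + 2 * L * τ) * δ * (1 / ‖ec ((2 * r * h : ℤ) / (p : ℝ)) - 1‖ ^ 2) := by
    intro h hh h0
    rw [norm_mul, ec_norm, one_mul]
    have hb := sum_bound (fun n => Φ n * Φ (n + h)) A B (fun n hn => by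
      simp only [hsupp n hn, zero_mul]) (((2 * r * h : ℤ) : ℝ) / p) _ (hV h)
    rcases eq_or_ne (‖ec (((2 * r * h : ℤ) : ℝ) / p) - 1‖ ^ 2) 0 with hz | hz
    · exfalso
      have hz' : ec (((2 * r * h : ℤ) : ℝ) / p) = 1 := by
        have := pow_eq_zero_iff (two_ne_zero) |>.1 hz
        rw [norm_eq_zero, sub_eq_zero] at this
        exact this
      unfold ec at hz'
      rw [Complex.exp_eq_one_iff] at hz'
      obtain ⟨m, hm⟩ := hz'
      have h2 : (2 * Real.pi * Complex.I : ℂ) ≠ 0 := by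
        simp [Real.pi_ne_zero, Complex.I_ne_zero]
      have h3 : ((((2 * r * h : ℤ) : ℝ) / p : ℝ) : ℂ) = m := by
        apply mul_left_cancel₀ h2
        rw [hm]
        ring
      have h4 : (((2 * r * h : ℤ) : ℝ) / p : ℝ) = m := by exact_mod_cast h3
      have h5 : ((2 * r * h : ℤ) : ℝ) = m * p := by
        field_simp at h4
        linarith
      have h6 : 2 * r * h = m * p := by exact_mod_cast h5
      have h7 : (p : ℤ) ∣ 2 * r * h := ⟨m, by rw [h6]; ring⟩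
      have hpp : Prime (p : ℤ) := Nat.prime_iff_prime_int.1 hp
      rcases hpp.dvd_or_dvd h7 with h8 | h8
      · exact hr h8
      · have h9 := Int.le_of_dvd (abs_pos.2 h0) ((dvd_abs _ _).2 h8)
        rw [hH, Finset.mem_Icc] at hh
        have h10 : |h| ≤ B - A := abs_le.2 ⟨by omega, by omega⟩
        omega
    · rw [mul_one_div, le_div_iff₀ (lt_of_le_of_ne (by positivity) (Ne.symm hz))]
      exact hb
  have h0H : (0 : ℤ) ∈ H := by
    rw [hH, Finset.mem_Icc]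
    omega
  rw [← Finset.add_sum_erase H _ h0H]
  refine (norm_add_le _ _).trans (add_le_add ?_ ?_)
  · rw [norm_mul, ec_norm, one_mul]
    refine (norm_sum_le _ _).trans ?_
    have : ∀ n ∈ Icc A B, ‖((Φ n * Φ (n + 0) : ℝ) : ℂ) *
        ec (((2 * r * 0 : ℤ) : ℝ) / p * n)‖ ≤ 1 := by
      intro n _
      rw [norm_mul, ec_norm, mul_one, Complex.norm_real, Real.norm_eq_abs, abs_mul]
      exact mul_le_one₀ (hΦ.bd _) (abs_nonneg _) (hΦ.bd _)
    refine (Finset.sum_le_sum this).trans ?_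
    rw [Finset.sum_const, nsmul_eq_mul, mul_one, Int.card_Icc]
    have h1 : (((B + 1 - A).toNat : ℕ) : ℤ) = B - A + 1 := by
      rw [Int.toNat_of_nonneg (by omega)]
      ring
    have h2 : (((B + 1 - A).toNat : ℕ) : ℝ) = ((B - A + 1 : ℤ) : ℝ) := by
      exact_mod_cast congrArg (fun z : ℤ => (z : ℝ)) h1
    rw [h2]
  · refine (norm_sum_le _ _).trans ?_
    have h1 : ∀ h ∈ H.erase 0, ‖ec ((r : ℝ) / p * (h : ℝ) ^ 2 + β * h) *
        ∑ n ∈ Icc A B, ((Φ n * Φ (n + h) : ℝ) : ℂ) * ec (((2 * r * h : ℤ) : ℝ) / p * n)‖ ≤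
        (σ + σ + 2 * L * τ) * δ * (1 / ‖ec ((2 * r * h : ℤ) / (p : ℝ)) - 1‖ ^ 2) := fun h hh =>
      hterm h (Finset.mem_of_mem_erase hh) (Finset.ne_of_mem_erase hh)
    refine (Finset.sum_le_sum h1).trans ?_
    rw [← Finset.mul_sum]
    refine mul_le_mul_of_nonneg_left ?_ ?_
    · have hpp : Prime (p : ℤ) := Nat.prime_iff_prime_int.1 hp
      apply sum_inv_set p hp.pos (H.erase 0) (2 * r)
      · intro x hx y hy hxy
        have hx' := Finset.mem_of_mem_erase hx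
        have hy' := Finset.mem_of_mem_erase hy
        rw [hH, Finset.mem_Icc] at hx' hy'
        have h2 : (p : ℤ) ∣ 2 * r * x - 2 * r * y := by
          have h3 := Int.emod_emod_of_dvd (2 * r * x - 2 * r * y) (dvd_refl (p : ℤ))
          rw [Int.dvd_iff_emod_eq_zero, Int.sub_emod, hxy, sub_self, Int.zero_emod]
        have h3 : (p : ℤ) ∣ 2 * r * (x - y) := by
          have : 2 * r * (x - y) = 2 * r * x - 2 * r * y := by ring
          rw [this]
          exact h2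
        rcases hpp.dvd_or_dvd h3 with h4 | h4
        · exact absurd h4 hr
        · by_contra hne
          have h5 := Int.le_of_dvd (abs_pos.2 (sub_ne_zero.2 hne)) ((dvd_abs _ _).2 h4)
          have h6 : |x - y| ≤ 2 * (B - A) := abs_le.2 ⟨by omega, by omega⟩
          omega
      · intro x hx hz
        have hx' := Finset.mem_of_mem_erase hx
        have hx0 := Finset.ne_of_mem_erase hx
        rw [hH, Finset.mem_Icc] at hx'
        have h2 : (p : ℤ) ∣ 2 * r * x := Int.dvd_of_emod_eq_zero hz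
        rcases hpp.dvd_or_dvd h2 with h4 | h4
        · exact hr h4
        · have h5 := Int.le_of_dvd (abs_pos.2 hx0) ((dvd_abs _ _).2 h4)
          have h6 : |x| ≤ B - A := abs_le.2 ⟨by omega, by omega⟩
          omega
    · simpa using (hΦ.mul (hΦ.shift 0)).v2 ∅

end Pool.Agent.K3h67.SIC
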