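import Mathlib

/-!
# Windows, and exponential sums with a quadratic phase and a smooth window
-/

set_option autoImplicit false

namespace Pool.Agent.K3h67.SIC

open Finset

/-! ### Windows -/

/-- bounds for a window, its total variation and its second differences -/
structure Nice (L τ σ δ : ℝ) (g : ℤ → ℝ) : Prop where
  bd : ∀ n, |g n| ≤ 1
  lip : ∀ n, |g (n + 1) - g n| ≤ L * δ
  tv : ∀ T : Finset ℤ, ∑ n ∈ T, |g (n + 1) - g n| ≤ τ
  v2 : ∀ T : Finset ℤ, ∑ n ∈ T, |g (n + 2) - 2 * g (n + 1) + g n| ≤ σ * δ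

theorem Nice.tv_nonneg {L τ σ δ : ℝ} {g : ℤ → ℝ} (h : Nice L τ σ δ g) : 0 ≤ τ := by
  simpa using h.tv ∅

theorem Nice.mul {L τ σ L' τ' σ' δ : ℝ} {g h : ℤ → ℝ} (hg : Nice L τ σ δ g)
    (hh : Nice L' τ' σ' δ h) :
    Nice (L + L') (τ + τ') (σ + σ' + 2 * L * τ') δ (fun n => g n * h n) := by
  have hd1 : ∀ n, |g (n + 1) * h (n + 1) - g n * h n| ≤
      |h (n + 1) - h n| + |g (n + 1) - g n| := by
    intro n
    have e : g (n + 1) * h (n + 1) - g n * h n =
        g (n + 1) * (h (n + 1) - h n) + (g (n + 1) - g n) * h n := by ring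
    rw [e]
    refine (abs_add_le _ _).trans (add_le_add ?_ ?_)
    · rw [abs_mul]
      exact mul_le_of_le_one_left (abs_nonneg _) (hg.bd _)
    · rw [abs_mul]
      exact mul_le_of_le_one_right (abs_nonneg _) (hh.bd _)
  refine ⟨fun n => ?_, fun n => ?_, fun T => ?_, fun T => ?_⟩
  · rw [abs_mul]
    exact mul_le_one₀ (hg.bd n) (abs_nonneg _) (hh.bd n)
  · refine (hd1 n).trans ?_
    have h1 := hg.lip n
    have h2 := hh.lip n
    nlinarith
  · refine (Finset.sum_le_sum fun n _ => hd1 n).trans ?_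
    rw [Finset.sum_add_distrib]
    have h1 := hg.tv T
    have h2 := hh.tv T
    linarith
  · have hd2 : ∀ n, |g (n + 2) * h (n + 2) - 2 * (g (n + 1) * h (n + 1)) + g n * h n| ≤
        |h (n + 2) - 2 * h (n + 1) + h n| + 2 * (L * δ) * |h (n + 1) - h n| +
          |g (n + 2) - 2 * g (n + 1) + g n| := by
      intro n
      have e : g (n + 2) * h (n + 2) - 2 * (g (n + 1) * h (n + 1)) + g n * h n =
          g (n + 2) * (h (n + 2) - 2 * h (n + 1) + h n) +
            2 * (g (n + 1 + 1) - g (n + 1)) * (h (n + 1) - h n) +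
            (g (n + 2) - 2 * g (n + 1) + g n) * h n := by
        have e2 : n + 1 + 1 = n + 2 := by ring
        rw [e2]
        ring
      rw [e]
      refine (abs_add_le _ _).trans (add_le_add ((abs_add_le _ _).trans (add_le_add ?_ ?_)) ?_)
      · rw [abs_mul]
        exact mul_le_of_le_one_left (abs_nonneg _) (hg.bd _)
      · rw [abs_mul, abs_mul, abs_two]
        exact mul_le_mul_of_nonneg_right (mul_le_mul_of_nonneg_left (hg.lip _) (by norm_num))
          (abs_nonneg _)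
      · rw [abs_mul]
        exact mul_le_of_le_one_right (abs_nonneg _) (hh.bd _)
    refine (Finset.sum_le_sum fun n _ => hd2 n).trans ?_
    rw [Finset.sum_add_distrib, Finset.sum_add_distrib, ← Finset.mul_sum]
    have h1 := hg.v2 T
    have h2 := hh.v2 T
    have h4 : 0 ≤ L * δ := le_trans (abs_nonneg _) (hg.lip 0)
    have h3 := mul_le_mul_of_nonneg_left (hh.tv T) (mul_nonneg (by norm_num : (0 : ℝ) ≤ 2) h4)
    nlinarith

theorem Nice.shift {L τ σ δ : ℝ} {g : ℤ → ℝ} (hg : Nice L τ σ δ g) (t : ℤ) :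
    Nice L τ σ δ (fun n => g (n + t)) := by
  have e1 : ∀ n : ℤ, n + 1 + t = n + t + 1 := fun n => by ring
  have e2 : ∀ n : ℤ, n + 2 + t = n + t + 2 := fun n => by ring
  refine ⟨fun n => hg.bd _, fun n => ?_, fun T => ?_, fun T => ?_⟩
  · simp only [e1]
    exact hg.lip _
  · have := hg.tv (T.map (addRightEmbedding t))
    rw [Finset.sum_map] at this
    simpa only [e1, addRightEmbedding_apply] using this
  · have := hg.v2 (T.map (addRightEmbedding t))
    rw [Finset.sum_map] at this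
    simpa only [e1, e2, addRightEmbedding_apply] using this

/-- the basic window -/
noncomputable def W (d : ℕ) (x : ℝ) : ℝ := Real.sin (Real.pi * (max 0 (min x d)) / d)

theorem W_nonpos (d : ℕ) (x : ℝ) (hx : x ≤ 0) : W d x = 0 := by
  unfold W
  rw [max_eq_left (min_le_of_left_le hx)]
  simp

theorem W_large (d : ℕ) (hd : 1 ≤ d) (x : ℝ) (hx : (d : ℝ) ≤ x) : W d x = 0 := by
  unfold W
  have h0 : (0 : ℝ) < d := by exact_mod_cast hd
  rw [min_eq_right hx, max_eq_right h0.le, mul_div_assoc, div_self h0.ne', mul_one, Real.sin_pi]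

theorem W_mid (d : ℕ) (x : ℝ) (h0 : 0 ≤ x) (h1 : x ≤ d) :
    W d x = Real.sin (Real.pi * x / d) := by
  unfold W
  rw [min_eq_left h1, max_eq_right h0]

theorem W_lip (d : ℕ) (hd : 1 ≤ d) (x y : ℝ) : |W d x - W d y| ≤ Real.pi / d * |x - y| := by
  unfold W
  have h0 : (0 : ℝ) < d := by exact_mod_cast hd
  have h1 : |Real.sin (Real.pi * (max 0 (min x d)) / d) - Real.sin (Real.pi * (max 0 (min y d)) / d)|
      ≤ |Real.pi * (max 0 (min x d)) / d - Real.pi * (max 0 (min y d)) / d| := by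
    have := Real.abs_sin_sub_sin_le (Real.pi * (max 0 (min x d)) / d)
      (Real.pi * (max 0 (min y d)) / d)
    exact this
  refine h1.trans ?_
  have e : Real.pi * (max 0 (min x d)) / d - Real.pi * (max 0 (min y d)) / d =
      Real.pi / d * (max 0 (min x d) - max 0 (min y d)) := by ring
  rw [e, abs_mul, abs_of_pos (div_pos Real.pi_pos h0)]
  refine mul_le_mul_of_nonneg_left ?_ (div_pos Real.pi_pos h0).le
  have h2 : |max 0 (min x (d : ℝ)) - max 0 (min y (d : ℝ))| ≤ |min x (d : ℝ) - min y (d : ℝ)| := by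
    have := abs_max_sub_max_le_max 0 (min x (d : ℝ)) 0 (min y (d : ℝ))
    simpa using this
  have h3 : |min x (d : ℝ) - min y (d : ℝ)| ≤ |x - y| := by
    have := abs_min_sub_min_le_max x (d : ℝ) y (d : ℝ)
    simpa using this
  exact h2.trans h3

theorem count_le (T : Finset ℤ) (s α β : ℝ) (h : α ≤ β) :
    ((T.filter (fun n : ℤ => α ≤ (n : ℝ) + s ∧ (n : ℝ) + s ≤ β)).card : ℝ) ≤ β - α + 1 := by
  have hsub : T.filter (fun n : ℤ => α ≤ (n : ℝ) + s ∧ (n : ℝ) + s ≤ β) ⊆
      Finset.Icc ⌈α - s⌉ ⌊β - s⌋ := by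
    intro n hn
    rw [Finset.mem_filter] at hn
    rw [Finset.mem_Icc]
    exact ⟨Int.ceil_le.2 (by linarith [hn.2.1]), Int.le_floor.2 (by linarith [hn.2.2])⟩
  have hc := Finset.card_le_card hsub
  rw [Int.card_Icc] at hc
  have h1 : ((T.filter (fun n : ℤ => α ≤ (n : ℝ) + s ∧ (n : ℝ) + s ≤ β)).card : ℝ) ≤
      ((⌊β - s⌋ + 1 - ⌈α - s⌉).toNat : ℝ) := by exact_mod_cast hc
  refine h1.trans ?_
  rcases le_or_gt 0 (⌊β - s⌋ + 1 - ⌈α - s⌉) with h2 | h2
  · have h3 : ((⌊β - s⌋ + 1 - ⌈α - s⌉).toNat : ℝ) = ((⌊β - s⌋ + 1 - ⌈α - s⌉ : ℤ) : ℝ) := by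
      have := Int.toNat_of_nonneg h2
      exact_mod_cast congrArg (fun z : ℤ => (z : ℝ)) this
    rw [h3]
    push_cast
    have h4 := Int.floor_le (β - s)
    have h5 := Int.le_ceil (α - s)
    linarith
  · rw [Int.toNat_of_nonpos h2.le]
    simp only [Nat.cast_zero]
    linarith

theorem sum_ind_le (T : Finset ℤ) (s α β c : ℝ) (h : α ≤ β) (hc : 0 ≤ c) :
    ∑ n ∈ T, (if α ≤ (n : ℝ) + s ∧ (n : ℝ) + s ≤ β then c else 0) ≤ c * (β - α + 1) := by
  rw [← Finset.sum_filter, Finset.sum_const, nsmul_eq_mul, mul_comm]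
  exact mul_le_mul_of_nonneg_left (count_le T s α β h) hc

theorem W_nice (d : ℕ) (hd : 1 ≤ d) (s : ℝ) :
    Nice (16 / 5) (19 / 2) 60 (1 / d) (fun n : ℤ => W d ((n : ℝ) + s)) := by
  have h0 : (0 : ℝ) < d := by exact_mod_cast hd
  have h1 : (1 : ℝ) ≤ d := by exact_mod_cast hd
  have hpi := Real.pi_pos
  have hpi4 : Real.pi ≤ 3.15 := by linarith [Real.pi_lt_d2]
  have hinv : 0 < 1 / (d : ℝ) := by positivity
  have hl : ∀ n : ℤ, |W d (((n + 1 : ℤ) : ℝ) + s) - W d ((n : ℝ) + s)| ≤ Real.pi / d := by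
    intro n
    have := W_lip d hd (((n + 1 : ℤ) : ℝ) + s) ((n : ℝ) + s)
    have e : ((n + 1 : ℤ) : ℝ) + s - ((n : ℝ) + s) = 1 := by push_cast; ring
    rwa [e, abs_one, mul_one] at this
  refine ⟨fun n => Real.abs_sin_le_one _, fun n => ?_, fun T => ?_, fun T => ?_⟩
  · refine (hl n).trans ?_
    rw [mul_one_div]
    exact div_le_div_of_nonneg_right (by linarith) h0.le
  · have hb : ∀ n ∈ T, |W d (((n + 1 : ℤ) : ℝ) + s) - W d ((n : ℝ) + s)| ≤
        (if (-1 : ℝ) ≤ (n : ℝ) + s ∧ (n : ℝ) + s ≤ d then Real.pi / d else 0) := by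
      intro n _
      split_ifs with h
      · exact hl n
      · rw [not_and_or, not_le, not_le] at h
        have hz : W d (((n + 1 : ℤ) : ℝ) + s) = 0 ∧ W d ((n : ℝ) + s) = 0 := by
          rcases h with h | h
          · exact ⟨W_nonpos d _ (by push_cast; linarith), W_nonpos d _ (by linarith)⟩
          · exact ⟨W_large d hd _ (by push_cast; linarith), W_large d hd _ (by linarith)⟩
        rw [hz.1, hz.2]
        simp
    refine (Finset.sum_le_sum hb).trans ((sum_ind_le T s (-1) d (Real.pi / d) (by linarith)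
      (by positivity)).trans ?_)
    rw [div_mul_eq_mul_div, div_le_iff₀ h0]
    nlinarith
  · have hb : ∀ n ∈ T, |W d (((n + 2 : ℤ) : ℝ) + s) - 2 * W d (((n + 1 : ℤ) : ℝ) + s) +
        W d ((n : ℝ) + s)| ≤
        (if (0 : ℝ) ≤ (n : ℝ) + s ∧ (n : ℝ) + s ≤ d then (Real.pi / d) ^ 2 else 0) +
        (if (-2 : ℝ) ≤ (n : ℝ) + s ∧ (n : ℝ) + s ≤ 0 then 2 * (Real.pi / d) else 0) +
        (if (d : ℝ) - 2 ≤ (n : ℝ) + s ∧ (n : ℝ) + s ≤ d then 2 * (Real.pi / d) else 0) := by
      intro n _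
      have hgen : |W d (((n + 2 : ℤ) : ℝ) + s) - 2 * W d (((n + 1 : ℤ) : ℝ) + s) +
        W d ((n : ℝ) + s)| ≤ 2 * (Real.pi / d) := by
        have e : W d (((n + 2 : ℤ) : ℝ) + s) - 2 * W d (((n + 1 : ℤ) : ℝ) + s) + W d ((n : ℝ) + s) =
          (W d (((n + 1 + 1 : ℤ) : ℝ) + s) - W d (((n + 1 : ℤ) : ℝ) + s)) -
            (W d (((n + 1 : ℤ) : ℝ) + s) - W d ((n : ℝ) + s)) := by
          have : (n + 1 + 1 : ℤ) = n + 2 := by ring
          rw [this]
          ring
        rw [e]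
        refine (abs_sub _ _).trans ?_
        have h2 := hl n
        have h3 := hl (n + 1)
        linarith
      have hp1 : (0 : ℝ) ≤ (if (0 : ℝ) ≤ (n : ℝ) + s ∧ (n : ℝ) + s ≤ d then (Real.pi / d) ^ 2 else 0) := by
        split_ifs <;> positivity
      have hp2 : (0 : ℝ) ≤ (if (-2 : ℝ) ≤ (n : ℝ) + s ∧ (n : ℝ) + s ≤ 0 then 2 * (Real.pi / d) else 0) := by
        split_ifs <;> positivity
      have hp3 : (0 : ℝ) ≤ (if (d : ℝ) - 2 ≤ (n : ℝ) + s ∧ (n : ℝ) + s ≤ d then 2 * (Real.pi / d) else 0) := by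
        split_ifs <;> positivity
      rcases lt_or_ge ((n : ℝ) + s) (-2) with c1 | c1
      · have z1 : W d (((n + 2 : ℤ) : ℝ) + s) = 0 := W_nonpos d _ (by push_cast; linarith)
        have z2 : W d (((n + 1 : ℤ) : ℝ) + s) = 0 := W_nonpos d _ (by push_cast; linarith)
        have z3 : W d ((n : ℝ) + s) = 0 := W_nonpos d _ (by linarith)
        rw [z1, z2, z3]
        simp only [mul_zero, sub_zero, add_zero, abs_zero]
        linarith
      rcases le_or_gt ((n : ℝ) + s) 0 with c2 | c2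
      · rw [if_pos (⟨c1, c2⟩ : (-2 : ℝ) ≤ (n : ℝ) + s ∧ (n : ℝ) + s ≤ 0)]
        linarith
      rcases lt_or_ge (d : ℝ) ((n : ℝ) + s) with c3 | c3
      · have z1 : W d (((n + 2 : ℤ) : ℝ) + s) = 0 := W_large d hd _ (by push_cast; linarith)
        have z2 : W d (((n + 1 : ℤ) : ℝ) + s) = 0 := W_large d hd _ (by push_cast; linarith)
        have z3 : W d ((n : ℝ) + s) = 0 := W_large d hd _ (by linarith)
        rw [z1, z2, z3]
        simp only [mul_zero, sub_zero, add_zero, abs_zero]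
        linarith
      rcases le_or_gt ((d : ℝ) - 2) ((n : ℝ) + s) with c4 | c4
      · rw [if_pos (⟨c4, c3⟩ : (d : ℝ) - 2 ≤ (n : ℝ) + s ∧ (n : ℝ) + s ≤ d)]
        linarith
      · rw [if_pos (⟨c2.le, c3⟩ : (0 : ℝ) ≤ (n : ℝ) + s ∧ (n : ℝ) + s ≤ d)]
        have hm : |W d (((n + 2 : ℤ) : ℝ) + s) - 2 * W d (((n + 1 : ℤ) : ℝ) + s) +
            W d ((n : ℝ) + s)| ≤ (Real.pi / d) ^ 2 := by
          rw [W_mid d (((n + 2 : ℤ) : ℝ) + s) (by push_cast; linarith) (by push_cast; linarith),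
            W_mid d (((n + 1 : ℤ) : ℝ) + s) (by push_cast; linarith) (by push_cast; linarith),
            W_mid d ((n : ℝ) + s) c2.le c3]
          set φ := Real.pi / d with hφ
          set θ := Real.pi * (((n + 1 : ℤ) : ℝ) + s) / d with hθ
          have e1 : Real.pi * (((n + 2 : ℤ) : ℝ) + s) / d = θ + φ := by
            rw [hθ, hφ]; push_cast; ring
          have e2 : Real.pi * ((n : ℝ) + s) / d = θ - φ := by
            rw [hθ, hφ]; push_cast; ring
          rw [e1, e2, Real.sin_add, Real.sin_sub]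
          have e3 : Real.sin θ * Real.cos φ + Real.cos θ * Real.sin φ - 2 * Real.sin θ +
              (Real.sin θ * Real.cos φ - Real.cos θ * Real.sin φ) =
              -(2 * (1 - Real.cos φ)) * Real.sin θ := by ring
          rw [e3, abs_mul, abs_neg]
          have h5 : 0 ≤ 1 - Real.cos φ := by linarith [Real.cos_le_one φ]
          rw [abs_of_nonneg (by linarith)]
          have h6 := Real.one_sub_sq_div_two_le_cos (x := φ)
          have h7 : |Real.sin θ| ≤ 1 := Real.abs_sin_le_one θ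
          have h8 : 2 * (1 - Real.cos φ) ≤ φ ^ 2 := by linarith
          calc 2 * (1 - Real.cos φ) * |Real.sin θ| ≤ 2 * (1 - Real.cos φ) * 1 :=
                mul_le_mul_of_nonneg_left h7 (by linarith)
            _ ≤ φ ^ 2 := by linarith
        linarith
    refine (Finset.sum_le_sum hb).trans ?_
    rw [Finset.sum_add_distrib, Finset.sum_add_distrib]
    have s1 := sum_ind_le T s 0 d ((Real.pi / d) ^ 2) h0.le (by positivity)
    have s2 := sum_ind_le T s (-2) 0 (2 * (Real.pi / d)) (by norm_num) (by positivity)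
    have s3 := sum_ind_le T s ((d : ℝ) - 2) d (2 * (Real.pi / d)) (by linarith) (by positivity)
    have e1 : (Real.pi / d) ^ 2 * ((d : ℝ) - 0 + 1) ≤ 20 * (1 / d) := by
      have e2 : (Real.pi / d) ^ 2 * ((d : ℝ) - 0 + 1) = Real.pi ^ 2 * ((d + 1) / d) * (1 / d) := by
        field_simp
        ring
      rw [e2]
      refine mul_le_mul_of_nonneg_right ?_ hinv.le
      have e3 : ((d : ℝ) + 1) / d ≤ 2 := by
        rw [div_le_iff₀ h0]; linarith
      have e4 : Real.pi ^ 2 ≤ 10 := by nlinarith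
      have e5 : 0 ≤ ((d : ℝ) + 1) / d := by positivity
      nlinarith
    have e2 : 2 * (Real.pi / d) * ((0 : ℝ) - -2 + 1) ≤ 20 * (1 / d) := by
      have : 2 * (Real.pi / d) * ((0 : ℝ) - -2 + 1) = 6 * Real.pi * (1 / d) := by ring
      rw [this]
      exact mul_le_mul_of_nonneg_right (by linarith) hinv.le
    have e3 : 2 * (Real.pi / d) * ((d : ℝ) - (d - 2) + 1) ≤ 20 * (1 / d) := by
      have : 2 * (Real.pi / d) * ((d : ℝ) - (d - 2) + 1) = 6 * Real.pi * (1 / d) := by ring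
      rw [this]
      exact mul_le_mul_of_nonneg_right (by linarith) hinv.le
    linarith

end Pool.Agent.K3h67.SIC
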