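import Pool.Agent.K3h67.SIC.Defs
import Pool.Agent.K3h67.SIC.Quad
import Pool.Agent.K3h67.SIC.Win

/-!
# The periodised double window with cubic phases, and its correlations
-/

set_option autoImplicit false

namespace Pool.Agent.K3h67.SIC

open Finset

variable (d p : ℕ)

/-- the shift of the window -/
noncomputable def sh (e : Fin 2) : ℝ := if e = 0 then 0 else (d : ℝ) / 2

/-- the quadratic twist of the window -/
def ga (e : Fin 2) : ℤ := if e = 0 then 0 else 7 * d

/-- one window with its cubic phase -/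
noncomputable def T (e : Fin 2) (n : ℤ) : ℂ :=
  (W d (n + sh d e) : ℂ) * ec (((n ^ 3 + ga d e * n ^ 2 : ℤ) : ℝ) / p)

/-- the two windows together -/
noncomputable def F (n : ℤ) : ℂ := ∑ e, T d p e n

/-- the periodisation of `F` -/
noncomputable def f (k : ZMod d) : ℂ := F d p k.val + F d p (k.val - d)

theorem sh_nonneg (e : Fin 2) : 0 ≤ sh d e := by
  unfold sh; split_ifs <;> positivity

theorem sh_le (e : Fin 2) : sh d e ≤ d := by
  unfold sh
  have : (0 : ℝ) ≤ d := by positivity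
  split_ifs <;> linarith

variable {d p}

theorem W_sh_zero (hd : 1 ≤ d) (e : Fin 2) (n : ℤ) (h : n ≤ -d ∨ (d : ℤ) ≤ n) :
    W d (n + sh d e) = 0 := by
  have h1 := sh_nonneg d e
  have h2 := sh_le d e
  rcases h with h | h
  · apply W_nonpos
    have : (n : ℝ) ≤ -d := by exact_mod_cast h
    linarith
  · apply W_large d hd
    have : (d : ℝ) ≤ n := by exact_mod_cast h
    linarith

theorem T_zero (hd : 1 ≤ d) (e : Fin 2) (n : ℤ) (h : n ≤ -d ∨ (d : ℤ) ≤ n) : T d p e n = 0 := by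
  rw [T, W_sh_zero hd e n h]
  simp

theorem F_zero (hd : 1 ≤ d) (n : ℤ) (h : n ≤ -d ∨ (d : ℤ) ≤ n) : F d p n = 0 := by
  rw [F]
  exact Finset.sum_eq_zero fun e _ => T_zero hd e n h

theorem sum_zmod [NeZero d] (g : ℤ → ℂ) :
    ∑ k : ZMod d, (g k.val + g (k.val - d)) = ∑ n ∈ Ico (-d : ℤ) d, g n := by
  have e0 : ∑ n ∈ Ico (-d : ℤ) d, g n = ∑ n ∈ Ico (0 : ℤ) d, g n + ∑ n ∈ Ico (-d : ℤ) 0, g n := by
    rw [← Finset.sum_union]
    · congr 1
      ext x
      simp only [Finset.mem_union, Finset.mem_Ico]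
      omega
    · rw [Finset.disjoint_left]
      intro x hx hx'
      rw [Finset.mem_Ico] at hx hx'
      omega
  have e1 : ∀ h : ℤ → ℂ, ∑ k : ZMod d, h k.val = ∑ n ∈ Ico (0 : ℤ) d, h n := by
    intro h
    refine Finset.sum_nbij' (fun k => (k.val : ℤ)) (fun n => (n : ZMod d)) ?_ ?_ ?_ ?_ ?_
    · intro k _
      rw [Finset.mem_Ico]
      have := ZMod.val_lt k
      omega
    · intro n _
      exact Finset.mem_univ _
    · intro k _
      simp
    · intro n hn
      rw [Finset.mem_Ico] at hn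
      rw [ZMod.val_intCast, Int.emod_eq_of_lt hn.1 hn.2]
    · intro k _
      rfl
  have e2 : ∑ n ∈ Ico (-d : ℤ) 0, g n = ∑ n ∈ Ico (0 : ℤ) d, g (n - d) := by
    refine Finset.sum_nbij' (fun n => n + d) (fun n => n - d) ?_ ?_ ?_ ?_ ?_
    · intro n hn
      rw [Finset.mem_Ico] at hn ⊢
      omega
    · intro n hn
      rw [Finset.mem_Ico] at hn ⊢
      omega
    · intro n _
      ring
    · intro n _
      ring
    · intro n _
      simp
  rw [Finset.sum_add_distrib, e0, e2, e1 g, e1 (fun n => g (n - d))]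

theorem f_add [NeZero d] (n : ℤ) (hn : n ∈ Ico (-d : ℤ) d) (a : ZMod d) :
    f d p ((n : ZMod d) + a) = ∑ i ∈ Icc (-2 : ℤ) 1, F d p (n + (a.val + i * d)) := by
  have hd : 1 ≤ d := Nat.one_le_iff_ne_zero.mpr (NeZero.ne d)
  have hval := ZMod.val_lt a
  rw [Finset.mem_Ico] at hn
  have hI : Icc (-2 : ℤ) 1 = {-2, -1, 0, 1} := by decide
  rw [hI, Finset.sum_insert (by decide), Finset.sum_insert (by decide),
    Finset.sum_insert (by decide), Finset.sum_singleton]
  have hN : ((n : ZMod d) + a) = ((n + a.val : ℤ) : ZMod d) := by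
    push_cast
    simp
  rw [hN, f, ZMod.val_intCast]
  have hdz : (0 : ℤ) < d := by omega
  by_cases h1 : n + a.val < 0
  · have e : (n + a.val) % (d : ℤ) = n + a.val + d := by
      rw [← Int.add_emod_right, Int.emod_eq_of_lt] <;> omega
    rw [e, F_zero hd (n + (a.val + -2 * d)) (by left; omega),
      F_zero hd (n + (a.val + -1 * d)) (by left; omega)]
    rw [zero_add, zero_add, add_comm]
    congr 2 <;> ring
  · by_cases h2 : n + a.val < d
    · have e : (n + a.val) % (d : ℤ) = n + a.val := by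
        rw [Int.emod_eq_of_lt] <;> omega
      rw [e, F_zero hd (n + (a.val + -2 * d)) (by left; omega),
        F_zero hd (n + (a.val + 1 * d)) (by right; omega)]
      rw [zero_add, add_zero, add_comm]
      congr 2 <;> ring
    · have e : (n + a.val) % (d : ℤ) = n + a.val - d := by
        rw [← Int.sub_emod_right, Int.emod_eq_of_lt] <;> omega
      rw [e, F_zero hd (n + (a.val + 0 * d)) (by right; omega),
        F_zero hd (n + (a.val + 1 * d)) (by right; omega)]
      rw [add_zero, add_zero, add_comm]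
      congr 2 <;> ring

theorem chi_int [NeZero d] (b : ZMod d) (n : ℤ) :
    ZMod.stdAddChar (b * (n : ZMod d)) = ec ((b.val : ℝ) / d * n) := by
  have e : b * (n : ZMod d) = ((b.val * n : ℤ) : ZMod d) := by
    push_cast
    simp
  rw [e, ZMod.stdAddChar_coe, ec]
  congr 1
  push_cast
  ring

variable (d p) in
/-- the correlation of two windows -/
noncomputable def S (t : ℤ) (e e' : Fin 2) (β : ℝ) : ℂ :=
  ∑ n ∈ Ico (-d : ℤ) d, starRingEnd ℂ (T d p e (n + t)) * ec (β * n) * T d p e' n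

theorem ip_eq [NeZero d] (a b : ZMod d) :
    ip (f d p) (D a b (f d p)) =
      ∑ i ∈ Icc (-2 : ℤ) 1, ∑ e, ∑ e', S d p (a.val + i * d) e e' ((b.val : ℝ) / d) := by
  rw [ip_D']
  obtain ⟨G, hG⟩ : ∃ G : ℤ → ℂ, ∀ n : ℤ, G n = starRingEnd ℂ (f d p ((n : ZMod d) + a)) *
      ZMod.stdAddChar (b * (n : ZMod d)) * F d p n := ⟨_, fun _ => rfl⟩
  have e1 : ∀ k : ZMod d, starRingEnd ℂ (f d p (k + a)) * ZMod.stdAddChar (b * k) * f d p k =
      G (k.val : ℤ) + G ((k.val : ℤ) - d) := by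
    intro k
    have e2 : (((k.val : ℤ) : ZMod d)) = k := by simp
    have e3 : (((k.val : ℤ) - d : ℤ) : ZMod d) = k := by simp
    rw [hG, hG, e2, e3, ← mul_add]
    rfl
  rw [Finset.sum_congr rfl (fun k _ => e1 k), sum_zmod G, Finset.sum_congr rfl (fun n _ => hG n)]
  have e4 : ∀ n ∈ Ico (-d : ℤ) d, starRingEnd ℂ (f d p ((n : ZMod d) + a)) *
      ZMod.stdAddChar (b * (n : ZMod d)) * F d p n =
      ∑ i ∈ Icc (-2 : ℤ) 1, ∑ e, ∑ e', starRingEnd ℂ (T d p e (n + (a.val + i * d))) *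
        ec ((b.val : ℝ) / d * n) * T d p e' n := by
    intro n hn
    rw [f_add n hn a, map_sum, Finset.sum_mul, Finset.sum_mul, chi_int]
    refine Finset.sum_congr rfl fun i _ => ?_
    rw [F, map_sum, Finset.sum_mul, Finset.sum_mul, F]
    refine Finset.sum_congr rfl fun e _ => ?_
    rw [Finset.mul_sum]
  rw [Finset.sum_congr rfl e4, Finset.sum_comm]
  refine Finset.sum_congr rfl fun i _ => ?_
  rw [Finset.sum_comm]
  refine Finset.sum_congr rfl fun e _ => ?_
  rw [Finset.sum_comm]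
  rfl

theorem S_bound (hd : 1 ≤ d) (hp : p.Prime) (hp1 : 14 * d < p) (hp2 : p ≤ 28 * d) (t : ℤ)
    (ht : |t| ≤ 2 * d) (e e' : Fin 2) (hne : t ≠ 0 ∨ e ≠ e') (β : ℝ) :
    ‖S d p t e e' β‖ ^ 2 ≤ 118600 * d := by
  have hd0 : (0 : ℝ) < d := by exact_mod_cast hd
  have hp0 : (0 : ℝ) < p := by exact_mod_cast hp.pos
  set r : ℤ := -(3 * t + ga d e - ga d e') with hr
  set β' : ℝ := β - ((3 * t ^ 2 + 2 * ga d e * t : ℤ) : ℝ) / p with hβ'
  set c : ℝ := -((t ^ 3 + ga d e * t ^ 2 : ℤ) : ℝ) / p with hc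
  set Φ : ℤ → ℝ := fun n => W d ((n : ℝ) + ((t : ℝ) + sh d e)) * W d ((n : ℝ) + sh d e') with hΦ
  have hN := (W_nice d hd ((t : ℝ) + sh d e)).mul (W_nice d hd (sh d e'))
  have hS : S d p t e e' β = ec c *
      ∑ n ∈ Icc (-d : ℤ) (d - 1), (Φ n : ℂ) * ec ((r : ℝ) / p * (n : ℝ) ^ 2 + β' * n) := by
    have hI : Ico (-d : ℤ) d = Icc (-d : ℤ) (d - 1) := by
      ext x
      rw [Finset.mem_Ico, Finset.mem_Icc]
      omega
    rw [S, hI, Finset.mul_sum]
    refine Finset.sum_congr rfl fun n _ => ?_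
    rw [T, T, map_mul, Complex.conj_ofReal, ec_conj, hΦ]
    simp only
    have e1 : ((n + t : ℤ) : ℝ) + sh d e = (n : ℝ) + ((t : ℝ) + sh d e) := by push_cast; ring
    rw [e1]
    have e2 : ec (-((((n + t) ^ 3 + ga d e * (n + t) ^ 2 : ℤ) : ℝ) / p)) * ec (β * n) *
        ec (((n ^ 3 + ga d e' * n ^ 2 : ℤ) : ℝ) / p) =
        ec c * ec ((r : ℝ) / p * (n : ℝ) ^ 2 + β' * n) := by
      rw [← ec_add, ← ec_add, ← ec_add]
      congr 1
      rw [hc, hβ', hr]
      push_cast
      field_simp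
      ring
    push_cast at e2 ⊢
    linear_combination ((W d ((n : ℝ) + ((t : ℝ) + sh d e)) : ℂ) * (W d ((n : ℝ) + sh d e') : ℂ)) * e2
  rw [hS, norm_mul, ec_norm, one_mul]
  have hga : ∀ x : Fin 2, ga d x = 0 ∨ ga d x = 7 * d := by
    intro x
    unfold ga
    split_ifs
    · exact Or.inl rfl
    · exact Or.inr rfl
  have hgne : e ≠ e' → ga d e ≠ ga d e' := by
    intro h
    unfold ga
    fin_cases e <;> fin_cases e' <;> simp at h ⊢ <;> omega
  have hr0 : ¬ (p : ℤ) ∣ 2 * r := by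
    intro h
    have h2 : r ≠ 0 := by
      intro h0
      rw [hr] at h0
      rw [abs_le] at ht
      rcases hne with h1 | h1
      · rcases hga e with h2 | h2 <;> rcases hga e' with h3 | h3 <;> rw [h2, h3] at h0 <;> omega
      · have h4 := hgne h1
        rcases hga e with h2 | h2 <;> rcases hga e' with h3 | h3 <;> rw [h2, h3] at h0 h4 <;> omega
    have h3 : (p : ℤ) ∣ r := by
      have hpp : Prime (p : ℤ) := Nat.prime_iff_prime_int.mp hp
      rcases hpp.dvd_or_dvd h with h4 | h4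
      · exfalso
        have := Int.le_of_dvd (by norm_num) h4
        omega
      · exact h4
    have h4 := Int.le_of_dvd (abs_pos.mpr h2) ((dvd_abs _ _).mpr h3)
    have h5 : |r| ≤ 13 * d := by
      rw [abs_le] at ht ⊢
      rw [hr]
      rcases hga e with h2 | h2 <;> rcases hga e' with h3 | h3 <;> rw [h2, h3] <;> constructor <;>
        omega
    omega
  have key := quad_sum p hp _ _ _ _ Φ hN (-d) (d - 1) (by omega) (by omega) (by
    intro n hn
    rw [hΦ]
    simp only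
    rw [W_sh_zero hd e' n (by omega), mul_zero]) r hr0 β'
  refine key.trans ?_
  have hp2' : (p : ℝ) ≤ 28 * d := by exact_mod_cast hp2
  have h1 : (p : ℝ) ^ 2 ≤ (28 * d) ^ 2 := by
    apply pow_le_pow_left₀ hp0.le hp2'
  have h2 : (1 / (d : ℝ)) * ((p : ℝ) ^ 2 / 4) ≤ 196 * d := by
    rw [div_mul_eq_mul_div, one_mul, div_le_iff₀ hd0]
    nlinarith
  push_cast
  nlinarith

end Pool.Agent.K3h67.SIC
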