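import Pool.Agent.K3h67.SIC.Defs

/-!
# Flat vectors with a time spike and a frequency spike
-/

set_option autoImplicit false

namespace Pool.Agent.K3h67.SIC

open Finset

variable {d : ℕ} [NeZero d]

/-- cross correlation -/
noncomputable def B (a b : ZMod d) (u v : ZMod d → ℂ) : ℂ :=
  ∑ k, starRingEnd ℂ (u (k + a)) * ZMod.stdAddChar (b * k) * v k

theorem ip_D_B (ψ : ZMod d → ℂ) (a b : ZMod d) : ip ψ (D a b ψ) = B a b ψ ψ := ip_D' ψ a b

theorem ip_B (ψ : ZMod d → ℂ) : ip ψ ψ = B 0 0 ψ ψ := by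
  rw [ip, B]
  refine Finset.sum_congr rfl fun k _ => ?_
  simp

/-- the spike at `0` -/
noncomputable def sp : ZMod d → ℂ := Pi.single 0 1

/-- the constant function -/
noncomputable def cn : ZMod d → ℂ := fun _ => 1

/-- a function with a time spike and a frequency spike -/
noncomputable def ff (g : ZMod d → ℂ) (x y : ℝ) : ZMod d → ℂ := fun k => g k + x * sp k + y * cn k

theorem B_ff (g : ZMod d → ℂ) (x y : ℝ) (a b : ZMod d) :
    B a b (ff g x y) (ff g x y) = B a b g g + x * (B a b g sp + B a b sp g) +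
      (x : ℂ) ^ 2 * B a b sp sp + y * (B a b g cn + B a b cn g) +
      x * y * (B a b sp cn + B a b cn sp) + (y : ℂ) ^ 2 * B a b cn cn := by
  unfold B ff
  simp only [mul_add, Finset.mul_sum, ← Finset.sum_add_distrib]
  refine Finset.sum_congr rfl fun k _ => ?_
  simp only [map_add, map_mul, Complex.conj_ofReal]
  ring

theorem B_sp_right (a b : ZMod d) (g : ZMod d → ℂ) : B a b g sp = starRingEnd ℂ (g a) := by
  rw [B, Finset.sum_eq_single 0]
  · simp [sp]
  · intro k _ hk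
    simp [sp, hk]
  · intro h
    exact absurd (Finset.mem_univ _) h

theorem B_sp_left (a b : ZMod d) (g : ZMod d → ℂ) :
    B a b sp g = ZMod.stdAddChar (b * -a) * g (-a) := by
  rw [B, Finset.sum_eq_single (-a)]
  · simp [sp]
  · intro k _ hk
    have : k + a ≠ 0 := fun h => hk (eq_neg_of_add_eq_zero_left h)
    simp [sp, this]
  · intro h
    exact absurd (Finset.mem_univ _) h

theorem sum_char (b : ZMod d) :
    ∑ k : ZMod d, ZMod.stdAddChar (b * k) = if b = 0 then (d : ℂ) else 0 := by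
  have := AddChar.sum_mulShift b (ZMod.isPrimitive_stdAddChar d)
  simp only [mul_comm _ b] at this
  rw [this]
  split_ifs <;> simp [ZMod.card]

theorem B_cn_cn (a b : ZMod d) : B a b cn cn = if b = 0 then (d : ℂ) else 0 := by
  rw [← sum_char, B]
  refine Finset.sum_congr rfl fun k _ => ?_
  simp [cn]

theorem B_cn_left (a b : ZMod d) (g : ZMod d → ℂ) :
    B a b cn g = ∑ k, ZMod.stdAddChar (b * k) * g k := by
  rw [B]
  refine Finset.sum_congr rfl fun k _ => ?_
  simp [cn]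

theorem B_cn_right (a b : ZMod d) (g : ZMod d → ℂ) :
    B a b g cn = ZMod.stdAddChar (b * -a) *
      starRingEnd ℂ (∑ k, ZMod.stdAddChar (-b * k) * g k) := by
  rw [B, map_sum, Finset.mul_sum, ← Equiv.sum_comp (Equiv.subRight a)]
  refine Finset.sum_congr rfl fun k _ => ?_
  simp only [Equiv.subRight_apply, sub_add_cancel, cn, mul_one, map_mul]
  rw [← AddChar.map_neg_eq_conj]
  have e : ZMod.stdAddChar (b * (k - a)) =
      ZMod.stdAddChar (b * -a) * ZMod.stdAddChar (-(-b * k)) := by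
    rw [← AddChar.map_add_eq_mul]
    congr 1
    ring
  rw [e]
  ring

/-- normalisation -/
theorem normalise (f : ZMod d → ℂ) (N c : ℝ) (hN : 0 < N) (h0 : B 0 0 f f = N)
    (h : ∀ a b : ZMod d, (a, b) ≠ (0, 0) →
      |Real.sqrt ((d : ℝ) + 1) * ‖B a b f f‖ - N| ≤ c * N) :
    ∃ ψ : ZMod d → ℂ, ip ψ ψ = 1 ∧ ∀ a b : ZMod d, (a, b) ≠ (0, 0) →
      |Real.sqrt ((d : ℝ) + 1) * ‖ip ψ (D a b ψ)‖ - 1| ≤ c := by
  set r : ℝ := Real.sqrt (1 / N) with hr
  have hr2 : r ^ 2 = 1 / N := Real.sq_sqrt (by positivity)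
  have e : ∀ a b : ZMod d, B a b (fun k => (r : ℂ) * f k) (fun k => (r : ℂ) * f k) =
      ((1 / N : ℝ) : ℂ) * B a b f f := by
    intro a b
    rw [← hr2]
    unfold B
    rw [Finset.mul_sum]
    refine Finset.sum_congr rfl fun k _ => ?_
    rw [map_mul, Complex.conj_ofReal]
    push_cast
    ring
  refine ⟨fun k => (r : ℂ) * f k, ?_, fun a b hab => ?_⟩
  · rw [ip_B, e, h0, ← Complex.ofReal_mul, one_div_mul_cancel hN.ne', Complex.ofReal_one]
  · have h1N : |1 / N| = 1 / N := abs_of_pos (by positivity)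
    rw [ip_D_B, e, norm_mul, Complex.norm_real, Real.norm_eq_abs, h1N]
    have e2 : Real.sqrt ((d : ℝ) + 1) * (1 / N * ‖B a b f f‖) - 1 =
        (Real.sqrt ((d : ℝ) + 1) * ‖B a b f f‖ - N) / N := by
      field_simp
    rw [e2, abs_div, abs_of_pos hN, div_le_iff₀ hN]
    exact h a b hab

/-- dimensions at most `3` -/
theorem small (hd : d ≤ 3) : ∃ ψ : ZMod d → ℂ, ip ψ ψ = 1 ∧ ∀ a b : ZMod d, (a, b) ≠ (0, 0) →
    |Real.sqrt ((d : ℝ) + 1) * ‖ip ψ (D a b ψ)‖ - 1| ≤
      10 / Real.sqrt (Real.sqrt ((d : ℝ) + 1)) := by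
  refine ⟨sp, ?_, fun a b _ => ?_⟩
  · rw [ip_B, B_sp_right]
    simp [sp]
  · rw [ip_D_B, B_sp_right]
    have h1 : ‖starRingEnd ℂ ((sp : ZMod d → ℂ) a)‖ ≤ 1 := by
      rw [RCLike.norm_conj, sp, Pi.single_apply]
      split_ifs <;> simp
    have h2 : Real.sqrt ((d : ℝ) + 1) ≤ 2 := by
      rw [Real.sqrt_le_left (by norm_num)]
      have : (d : ℝ) ≤ 3 := by exact_mod_cast hd
      linarith
    have h3 : 0 ≤ Real.sqrt ((d : ℝ) + 1) := Real.sqrt_nonneg _
    have h4 : 0 ≤ ‖starRingEnd ℂ ((sp : ZMod d → ℂ) a)‖ := norm_nonneg _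
    have h5 : |Real.sqrt ((d : ℝ) + 1) * ‖starRingEnd ℂ ((sp : ZMod d → ℂ) a)‖ - 1| ≤ 1 := by
      rw [abs_le]
      constructor <;> nlinarith
    refine h5.trans ?_
    have h6 : 0 < Real.sqrt (Real.sqrt ((d : ℝ) + 1)) := by positivity
    rw [le_div_iff₀ h6, one_mul]
    have h7 : Real.sqrt (Real.sqrt ((d : ℝ) + 1)) ≤ 2 := by
      rw [Real.sqrt_le_left (by norm_num)]
      linarith
    linarith

end Pool.Agent.K3h67.SIC
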