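import Pool.Agent.K3h67.SIC.Win

/-!
# Exponential sums with a quadratic phase and a smooth window
-/

set_option autoImplicit false

namespace Pool.Agent.K3h67.SIC

open Finset

/-- the exponential `exp(2 pi i x)` -/
noncomputable def ec (x : ℝ) : ℂ := Complex.exp (2 * Real.pi * Complex.I * (x : ℂ))

lemma ec_norm (x : ℝ) : ‖ec x‖ = 1 := by
  unfold ec
  have : (2 * Real.pi * Complex.I * (x : ℂ)) = ((2 * Real.pi * x : ℝ) : ℂ) * Complex.I := by
    push_cast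
    ring
  rw [this, Complex.norm_exp_ofReal_mul_I]

lemma ec_add (x y : ℝ) : ec (x + y) = ec x * ec y := by
  unfold ec
  rw [← Complex.exp_add]
  congr 1
  push_cast
  ring

lemma ec_zero : ec 0 = 1 := by simp [ec]

lemma ec_ne_zero (x : ℝ) : ec x ≠ 0 := Complex.exp_ne_zero _

lemma ec_int (n : ℤ) : ec n = 1 := by
  unfold ec
  rw [Complex.exp_eq_one_iff]
  exact ⟨n, by push_cast; ring⟩

lemma ec_conj (x : ℝ) : starRingEnd ℂ (ec x) = ec (-x) := by
  unfold ec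
  rw [← Complex.exp_conj]
  congr 1
  simp only [map_mul, Complex.conj_ofReal, Complex.conj_I, map_ofNat]
  push_cast
  ring

/-- twofold partial summation -/
theorem sum_bound (g : ℤ → ℝ) (A B : ℤ) (hsupp : ∀ n, n < A ∨ B < n → g n = 0) (θ V : ℝ)
    (hV : ∀ T : Finset ℤ, ∑ n ∈ T, |g (n + 2) - 2 * g (n + 1) + g n| ≤ V) :
    ‖∑ n ∈ Icc A B, (g n : ℂ) * ec (θ * n)‖ * ‖ec θ - 1‖ ^ 2 ≤ V := by
  set G := ∑ n ∈ Icc A B, (g n : ℂ) * ec (θ * n) with hG
  have key : ∀ k : ℕ, k ≤ 2 →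
      ∑ n ∈ Icc (A - 2) B, (g (n + k) : ℂ) * ec (θ * ((n + k : ℤ) : ℝ)) = G := by
    intro k hk
    have e1 : ∑ n ∈ Icc (A - 2) B, (g (n + k) : ℂ) * ec (θ * ((n + k : ℤ) : ℝ)) =
        ∑ m ∈ (Icc (A - 2) B).map (addRightEmbedding (k : ℤ)), (g m : ℂ) * ec (θ * (m : ℝ)) := by
      rw [Finset.sum_map]
      rfl
    rw [e1, hG]
    symm
    apply Finset.sum_subset
    · intro m hm
      rw [Finset.mem_Icc] at hm
      rw [Finset.mem_map]
      exact ⟨m - k, by rw [Finset.mem_Icc]; omega, by simp⟩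
    · intro m _ hm2
      rw [Finset.mem_Icc, not_and_or, not_le, not_le] at hm2
      rw [hsupp m hm2]
      simp
  have h0 := key 0 (by norm_num)
  have h1 := key 1 (by norm_num)
  have h2 := key 2 le_rfl
  have hid : (ec θ - 1) ^ 2 * G =
      ∑ n ∈ Icc (A - 2) B, ((g (n + 2) - 2 * g (n + 1) + g n : ℝ) : ℂ) * ec (θ * ((n : ℝ) + 2)) := by
    have e : (ec θ - 1) ^ 2 * G = G - 2 * (ec θ * G) + ec θ * (ec θ * G) := by ring
    rw [e]
    nth_rewrite 1 [← h2]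
    nth_rewrite 1 [← h1]
    rw [← h0]
    simp only [Finset.mul_sum]
    rw [← Finset.sum_sub_distrib, ← Finset.sum_add_distrib]
    refine Finset.sum_congr rfl fun n _ => ?_
    have f2 : ec (θ * ((n + (2 : ℕ) : ℤ) : ℝ)) = ec (θ * ((n : ℝ) + 2)) := by
      congr 1
      push_cast
      ring
    have f1 : ec θ * ec (θ * ((n + (1 : ℕ) : ℤ) : ℝ)) = ec (θ * ((n : ℝ) + 2)) := by
      rw [← ec_add]
      congr 1
      push_cast
      ring
    have f0 : ec θ * (ec θ * ec (θ * ((n + (0 : ℕ) : ℤ) : ℝ))) = ec (θ * ((n : ℝ) + 2)) := by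
      rw [← ec_add, ← ec_add]
      congr 1
      push_cast
      ring
    have g2 : g (n + (2 : ℕ)) = g (n + 2) := rfl
    have g1 : g (n + (1 : ℕ)) = g (n + 1) := rfl
    have g0 : g (n + (0 : ℕ)) = g n := by simp
    rw [g2, g1, g0]
    push_cast
    push_cast at f0 f1 f2
    rw [f2]
    linear_combination (-2 * (g (n + 1) : ℂ)) * f1 + (g n : ℂ) * f0
  have hn : ‖(ec θ - 1) ^ 2 * G‖ ≤ V := by
    rw [hid]
    refine (norm_sum_le _ _).trans (le_trans (Finset.sum_le_sum fun n _ => ?_) (hV (Icc (A - 2) B)))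
    rw [norm_mul, ec_norm, mul_one, Complex.norm_real, Real.norm_eq_abs]
  rw [norm_mul, norm_pow, mul_comm] at hn
  exact hn

/-- distance of `ec (j / p)` from one -/
theorem inv_sq_le (p j : ℕ) (hj : 0 < j) (hjp : j < p) :
    1 / ‖ec ((j : ℝ) / p) - 1‖ ^ 2 ≤ (p : ℝ) ^ 2 / 16 * (1 / (j : ℝ) ^ 2 + 1 / ((p - j : ℕ) : ℝ) ^ 2) := by
  have hp0 : (0 : ℝ) < p := by exact_mod_cast (hj.trans hjp)
  have hj0 : (0 : ℝ) < j := by exact_mod_cast hj
  have hq0 : (0 : ℝ) < ((p - j : ℕ) : ℝ) := by exact_mod_cast (Nat.sub_pos_of_lt hjp)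
  have hqe : ((p - j : ℕ) : ℝ) = (p : ℝ) - j := by push_cast [hjp.le]; ring
  have hpi := Real.pi_pos
  have hn : ‖ec ((j : ℝ) / p) - 1‖ = 2 * Real.sin (Real.pi * j / p) := by
    have h1 := Complex.norm_exp_I_mul_ofReal_sub_one (2 * Real.pi * ((j : ℝ) / p))
    have h2 : ec ((j : ℝ) / p) = Complex.exp (Complex.I * ((2 * Real.pi * ((j : ℝ) / p) : ℝ) : ℂ)) := by
      unfold ec
      congr 1
      push_cast
      ring
    rw [h2, h1]
    have h3 : 2 * Real.pi * ((j : ℝ) / p) / 2 = Real.pi * j / p := by ring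
    rw [h3, Real.norm_eq_abs, abs_of_nonneg]
    refine mul_nonneg (by norm_num) (Real.sin_nonneg_of_nonneg_of_le_pi (by positivity) ?_)
    rw [div_le_iff₀ hp0]
    exact mul_le_mul_of_nonneg_left (by exact_mod_cast hjp.le) hpi.le
  rw [hn]
  rcases le_or_gt (2 * j) p with h | h
  · have hs : 2 * ((j : ℝ) / p) ≤ Real.sin (Real.pi * j / p) := by
      have h1 : Real.pi * j / p ≤ Real.pi / 2 := by
        rw [div_le_div_iff₀ hp0 (by norm_num)]
        have : (2 : ℝ) * j ≤ p := by exact_mod_cast h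
        nlinarith
      have h2 := Real.mul_le_sin (x := Real.pi * j / p) (by positivity) h1
      refine le_trans (le_of_eq ?_) h2
      field_simp
    have hpos : 0 < 2 * ((j : ℝ) / p) := by positivity
    have h3 : 1 / (2 * Real.sin (Real.pi * j / p)) ^ 2 ≤ 1 / (4 * ((j : ℝ) / p)) ^ 2 := by
      apply one_div_le_one_div_of_le (by positivity)
      apply pow_le_pow_left₀ (by positivity)
      linarith
    refine h3.trans ?_
    have h4 : 1 / (4 * ((j : ℝ) / p)) ^ 2 = (p : ℝ) ^ 2 / 16 * (1 / (j : ℝ) ^ 2) := by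
      field_simp
      norm_num
    rw [h4]
    refine mul_le_mul_of_nonneg_left ?_ (by positivity)
    have : 0 ≤ 1 / ((p - j : ℕ) : ℝ) ^ 2 := by positivity
    linarith
  · have hs : 2 * (((p - j : ℕ) : ℝ) / p) ≤ Real.sin (Real.pi * j / p) := by
      have h0 : Real.sin (Real.pi * j / p) = Real.sin (Real.pi * ((p - j : ℕ) : ℝ) / p) := by
        rw [← Real.sin_pi_sub]
        congr 1
        rw [hqe]
        field_simp
      rw [h0]
      have h1 : Real.pi * ((p - j : ℕ) : ℝ) / p ≤ Real.pi / 2 := by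
        rw [div_le_div_iff₀ hp0 (by norm_num), hqe]
        have : (p : ℝ) ≤ 2 * j := by exact_mod_cast h.le
        nlinarith
      have h2 := Real.mul_le_sin (x := Real.pi * ((p - j : ℕ) : ℝ) / p) (by positivity) h1
      refine le_trans (le_of_eq ?_) h2
      field_simp
    have hpos : 0 < 2 * (((p - j : ℕ) : ℝ) / p) := by positivity
    have h3 : 1 / (2 * Real.sin (Real.pi * j / p)) ^ 2 ≤ 1 / (4 * (((p - j : ℕ) : ℝ) / p)) ^ 2 := by
      apply one_div_le_one_div_of_le (by positivity)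
      apply pow_le_pow_left₀ (by positivity)
      linarith
    refine h3.trans ?_
    have h4 : 1 / (4 * (((p - j : ℕ) : ℝ) / p)) ^ 2 =
        (p : ℝ) ^ 2 / 16 * (1 / ((p - j : ℕ) : ℝ) ^ 2) := by
      field_simp
      norm_num
    rw [h4]
    refine mul_le_mul_of_nonneg_left ?_ (by positivity)
    have : 0 ≤ 1 / (j : ℝ) ^ 2 := by positivity
    linarith

theorem sum_inv_sq (p : ℕ) : ∑ j ∈ Ioo 0 p, 1 / (j : ℝ) ^ 2 ≤ 2 := by
  have h := sum_Ioo_inv_sq_le (α := ℝ) 0 p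
  simp only [one_div]
  simpa using h

theorem sum_inv_dist (p : ℕ) :
    ∑ j ∈ Ioo 0 p, 1 / ‖ec ((j : ℝ) / p) - 1‖ ^ 2 ≤ (p : ℝ) ^ 2 / 4 := by
  have h1 : ∑ j ∈ Ioo 0 p, 1 / ‖ec ((j : ℝ) / p) - 1‖ ^ 2 ≤
      ∑ j ∈ Ioo 0 p, (p : ℝ) ^ 2 / 16 * (1 / (j : ℝ) ^ 2 + 1 / ((p - j : ℕ) : ℝ) ^ 2) :=
    Finset.sum_le_sum fun j hj => inv_sq_le p j (Finset.mem_Ioo.1 hj).1 (Finset.mem_Ioo.1 hj).2
  refine h1.trans ?_
  rw [← Finset.mul_sum, Finset.sum_add_distrib]
  have h2 : ∑ j ∈ Ioo 0 p, 1 / ((p - j : ℕ) : ℝ) ^ 2 = ∑ j ∈ Ioo 0 p, 1 / (j : ℝ) ^ 2 := by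
    refine Finset.sum_bij' (fun j _ => p - j) (fun j _ => p - j) ?_ ?_ ?_ ?_ ?_
    · intro j hj
      rw [Finset.mem_Ioo] at hj ⊢
      omega
    · intro j hj
      rw [Finset.mem_Ioo] at hj ⊢
      omega
    · intro j hj
      rw [Finset.mem_Ioo] at hj
      omega
    · intro j hj
      rw [Finset.mem_Ioo] at hj
      omega
    · intro j _
      rfl
  rw [h2]
  have h3 := sum_inv_sq p
  have h4 : (0 : ℝ) ≤ (p : ℝ) ^ 2 / 16 := by positivity
  nlinarith

/-- the sum over a set of integers which are nonzero and distinct modulo `p` -/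
theorem sum_inv_set (p : ℕ) (hp : 0 < p) (H : Finset ℤ) (c : ℤ)
    (hinj : ∀ x ∈ H, ∀ y ∈ H, (c * x) % p = (c * y) % p → x = y) (h0 : ∀ x ∈ H, (c * x) % p ≠ 0) :
    ∑ h ∈ H, 1 / ‖ec ((c * h : ℤ) / (p : ℝ)) - 1‖ ^ 2 ≤ (p : ℝ) ^ 2 / 4 := by
  have hpz : (p : ℤ) ≠ 0 := by exact_mod_cast hp.ne'
  have hpr : (p : ℝ) ≠ 0 := by exact_mod_cast hp.ne'
  have hmod : ∀ x : ℤ, ec ((x : ℝ) / p) = ec ((((x % p).toNat : ℕ) : ℝ) / p) := by
    intro x
    have h1 : (((x % p).toNat : ℕ) : ℝ) = ((x % p : ℤ) : ℝ) := by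
      have := Int.toNat_of_nonneg (Int.emod_nonneg x hpz)
      exact_mod_cast congrArg (fun z : ℤ => (z : ℝ)) this
    have h2 : (x : ℝ) / p = ((x % p : ℤ) : ℝ) / p + ((x / p : ℤ) : ℝ) := by
      have h3 : (x : ℝ) = ((x % p : ℤ) : ℝ) + p * ((x / p : ℤ) : ℝ) := by
        exact_mod_cast (Int.emod_add_mul_ediv x p).symm
      field_simp
      linarith
    rw [h2, ec_add, ec_int, mul_one, h1]
  have e1 : ∑ h ∈ H, 1 / ‖ec ((c * h : ℤ) / (p : ℝ)) - 1‖ ^ 2 =
      ∑ j ∈ H.image (fun h => ((c * h) % p).toNat), 1 / ‖ec ((j : ℝ) / p) - 1‖ ^ 2 := by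
    rw [Finset.sum_image]
    · exact Finset.sum_congr rfl fun h _ => by rw [hmod]
    · intro x hx y hy hxy
      apply hinj x hx y hy
      have h1 := Int.toNat_of_nonneg (Int.emod_nonneg (c * x) hpz)
      have h2 := Int.toNat_of_nonneg (Int.emod_nonneg (c * y) hpz)
      simp only at hxy
      rw [← h1, ← h2, hxy]
  rw [e1]
  refine le_trans (Finset.sum_le_sum_of_subset_of_nonneg ?_ ?_) (sum_inv_dist p)
  · intro j hj
    rw [Finset.mem_image] at hj
    obtain ⟨h, hh, rfl⟩ := hj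
    have h1 := Int.emod_nonneg (c * h) hpz
    have h2 := Int.emod_lt_of_pos (c * h) (by exact_mod_cast hp : (0 : ℤ) < p)
    have h3 := h0 h hh
    rw [Finset.mem_Ioo]
    omega
  · intro j _ _
    positivity

end Pool.Agent.K3h67.SIC
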